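import Mathlib

/-! Regularisation of sequences that are asymptotic to polynomials in the harmonic numbers. -/

namespace Pool.Agent.Lib.MP_56ed1a_nt

open Finset Filter Topology Polynomial

/-- `k ^ (-(i+1))`, with value `0` at `k = 0`. -/
noncomputable def w (i k : ℕ) : ℝ := ((k : ℝ) ^ (i + 1))⁻¹

@[simp] lemma w_zero (i : ℕ) : w i 0 = 0 := by simp [w]

lemma w_nonneg (i k : ℕ) : 0 ≤ w i k := by unfold w; positivity

lemma w_mul (i j k : ℕ) : w i k * w j k = w (i + j + 1) k := by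
  rw [w, w, w, ← mul_inv, ← pow_add]; congr 2; ring

lemma w_anti {i j : ℕ} (h : i ≤ j) (k : ℕ) : w j k ≤ w i k := by
  rcases Nat.eq_zero_or_pos k with rfl | hk
  · simp
  · have : (1 : ℝ) ≤ k := by exact_mod_cast hk
    exact inv_anti₀ (by positivity) (pow_le_pow_right₀ this (by omega))

/-- Harmonic numbers `∑_{0 < k < M} 1 / k`. -/
noncomputable def H (M : ℕ) : ℝ := ∑ k ∈ range M, w 0 k

lemma H_nonneg (M : ℕ) : 0 ≤ H M := sum_nonneg fun k _ => w_nonneg 0 k

lemma H_mono : Monotone H := fun _ _ h =>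
  sum_le_sum_of_subset_of_nonneg (range_mono h) fun k _ _ => w_nonneg 0 k

lemma H_succ (M : ℕ) : H (M + 1) = ∑ k ∈ range M, 1 / ((k : ℝ) + 1) := by
  rw [H, sum_range_succ']; simp [w]

lemma H_tendsto : Tendsto H atTop atTop := by
  rw [← tendsto_add_atTop_iff_nat 1]
  simp only [H_succ]
  exact Real.tendsto_sum_range_one_div_nat_succ_atTop

lemma H_le (M : ℕ) : H M ≤ 1 + Real.log M := by
  refine (H_mono (Nat.le_succ M)).trans ?_
  have := harmonic_le_one_add_log M
  rw [H_succ]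
  simpa [harmonic] using this

lemma H_pow_le (n : ℕ) : ∃ C : ℝ, 0 ≤ C ∧ ∀ M : ℕ, 1 ≤ M → H M ^ n ≤ C * (M : ℝ) ^ (1 / 2 : ℝ) := by
  have hε : (0 : ℝ) < 1 / (2 * (n + 1)) := by positivity
  refine ⟨(1 + 2 * (n + 1)) ^ n, by positivity, fun M hM => ?_⟩
  have h1 : (1 : ℝ) ≤ M := by exact_mod_cast hM
  have h2 := Real.log_le_rpow_div (x := M) (by positivity) hε
  have h3 : 1 ≤ (M : ℝ) ^ (1 / (2 * (n + 1)) : ℝ) := Real.one_le_rpow h1 hε.le
  have h4 : H M ≤ (1 + 2 * (n + 1)) * (M : ℝ) ^ (1 / (2 * (n + 1)) : ℝ) := by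
    have := H_le M
    rw [div_div_eq_mul_div, div_one] at h2
    nlinarith
  refine (pow_le_pow_left₀ (H_nonneg M) h4 n).trans ?_
  rw [mul_pow, ← Real.rpow_natCast ((M : ℝ) ^ _), ← Real.rpow_mul (by positivity)]
  refine mul_le_mul_of_nonneg_left (Real.rpow_le_rpow_of_exponent_le h1 ?_) (by positivity)
  rw [div_mul_eq_mul_div, div_le_div_iff₀ (by positivity) (by positivity)]
  nlinarith

lemma summable_H (n : ℕ) : Summable fun k => H k ^ n * w 1 k := by
  obtain ⟨C, hC, h⟩ := H_pow_le n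
  refine Summable.of_nonneg_of_le (fun k => mul_nonneg (pow_nonneg (H_nonneg k) n) (w_nonneg 1 k))
    (fun k => ?_) ((Real.summable_nat_rpow.2 (by norm_num : (-3 / 2 : ℝ) < -1)).mul_left C)
  rcases Nat.eq_zero_or_pos k with rfl | hk
  · simp only [w_zero, mul_zero]; positivity
  · refine (mul_le_mul_of_nonneg_right (h k hk) (w_nonneg 1 k)).trans_eq ?_
    have : (0 : ℝ) < k := by exact_mod_cast hk
    rw [w, mul_assoc, ← Real.rpow_natCast, ← Real.rpow_neg this.le, ← Real.rpow_add this]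
    norm_num

lemma tendsto_H_div (n : ℕ) : Tendsto (fun M : ℕ => H M ^ n / M) atTop (𝓝 0) := by
  obtain ⟨C, hC, h⟩ := H_pow_le n
  have t := ((tendsto_rpow_neg_atTop (by norm_num : (0 : ℝ) < 1 / 2)).comp
    tendsto_natCast_atTop_atTop).const_mul C
  rw [mul_zero] at t
  refine squeeze_zero' (Eventually.of_forall fun M => div_nonneg (pow_nonneg (H_nonneg M) n)
    (by positivity)) ?_ t
  filter_upwards [eventually_ge_atTop 1] with M hM
  have : (0 : ℝ) < M := by exact_mod_cast hM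
  refine (div_le_div_of_nonneg_right (h M hM) this.le).trans_eq ?_
  rw [mul_div_assoc, ← Real.rpow_sub_one this.ne']
  norm_num

/-- Sequences that tend to zero faster than every negative power of `H`. -/
def Small : Submodule ℝ (ℕ → ℝ) where
  carrier := {ε | ∀ n : ℕ, Tendsto (ε * H ^ n) atTop (𝓝 0)}
  zero_mem' := fun n => by rw [zero_mul]; exact tendsto_const_nhds
  add_mem' := fun {a b} ha hb n => by
    have := (ha n).add (hb n)
    rw [add_zero] at this
    rw [add_mul]; exact this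
  smul_mem' := fun c a ha n => by
    have := (ha n).const_smul c
    rw [smul_zero] at this
    rw [smul_mul_assoc]; exact this

lemma Small.tendsto {ε : ℕ → ℝ} (h : ε ∈ Small) : Tendsto ε atTop (𝓝 0) := by
  simpa using h 0

lemma Small.mul {a b : ℕ → ℝ} (ha : a ∈ Small) (hb : b ∈ Small) : a * b ∈ Small := fun n => by
  have := (Small.tendsto ha).mul (hb n)
  rw [mul_zero] at this
  rw [mul_assoc]; exact this

lemma Small.mul_aeval {a : ℕ → ℝ} (ha : a ∈ Small) (P : ℝ[X]) : a * aeval H P ∈ Small := by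
  induction P using Polynomial.induction_on' with
  | add p q hp hq => rw [map_add, mul_add]; exact add_mem hp hq
  | monomial n c =>
    rw [aeval_monomial, ← Algebra.smul_def, mul_smul_comm]
    refine Small.smul_mem c fun m => ?_
    rw [mul_assoc, ← pow_add]; exact ha _

lemma Small.of_le {a : ℕ → ℝ} (h0 : ∀ M, 0 ≤ a M)
    (h : ∀ n, ∃ b : ℕ → ℝ, Tendsto b atTop (𝓝 0) ∧ ∀ M, a M * H M ^ n ≤ b M) : a ∈ Small := by
  intro n
  obtain ⟨b, hb, h⟩ := h n
  exact squeeze_zero (fun M => mul_nonneg (h0 M) (pow_nonneg (H_nonneg M) n)) h hb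

lemma eq_zero_of_small {P : ℝ[X]} (h : aeval H P ∈ Small) : P = 0 := by
  have t : Tendsto (fun M => P.eval (H M)) atTop (𝓝 0) := by
    have := Small.tendsto h
    convert this using 2
    simp [aeval_fn_apply, coe_aeval_eq_eval]
  by_cases hd : 0 < P.degree
  · have t2 := (P.abs_tendsto_atTop hd).comp H_tendsto
    exact absurd t2 (not_tendsto_atTop_of_tendsto_nhds t.abs)
  · rw [eq_C_of_degree_le_zero (not_lt.1 hd)] at t ⊢
    simp only [eval_C] at t
    rw [tendsto_nhds_unique tendsto_const_nhds t, map_zero]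

/-- `s` is asymptotic to a polynomial in `H`. -/
def Asy (s : ℕ → ℝ) : Prop := ∃ P : ℝ[X], s - aeval H P ∈ Small

lemma exists_reg : ∃ reg : (ℕ → ℝ) →ₗ[ℝ] ℝ, ∀ (s : ℕ → ℝ) (P : ℝ[X]),
    s - aeval H P ∈ Small → reg s = P.eval 0 := by
  obtain ⟨g, hg⟩ := LinearMap.exists_leftInverse_of_injective
    (Small.mkQ ∘ₗ (aeval H : ℝ[X] →ₐ[ℝ] ℕ → ℝ).toLinearMap) (by
      rw [LinearMap.ker_eq_bot']
      intro P hP
      exact eq_zero_of_small ((Submodule.Quotient.mk_eq_zero _).1 hP))
  refine ⟨(leval 0) ∘ₗ g ∘ₗ Small.mkQ, fun s P h => ?_⟩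
  have h1 : Small.mkQ s = Small.mkQ (aeval H P) := (Submodule.Quotient.eq _).2 h
  have h2 : g (Small.mkQ (aeval H P)) = P := LinearMap.congr_fun hg P
  simp only [LinearMap.comp_apply, h1, h2, leval_apply]

/-- The regularised limit. -/
noncomputable def reg : (ℕ → ℝ) →ₗ[ℝ] ℝ := exists_reg.choose

lemma reg_eq {s : ℕ → ℝ} {P : ℝ[X]} (h : s - aeval H P ∈ Small) : reg s = P.eval 0 :=
  exists_reg.choose_spec s P h

lemma reg_small {s : ℕ → ℝ} (h : s ∈ Small) : reg s = 0 := by
  simpa using reg_eq (s := s) (P := 0) (by simpa using h)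

lemma small_mul {s t : ℕ → ℝ} {P Q : ℝ[X]} (hs : s - aeval H P ∈ Small)
    (ht : t - aeval H Q ∈ Small) : s * t - aeval H (P * Q) ∈ Small := by
  have := add_mem (add_mem (Small.mul hs ht) (Small.mul_aeval hs Q)) (Small.mul_aeval ht P)
  rw [map_mul]
  convert this using 1
  ring

lemma Asy.mul {s t : ℕ → ℝ} (hs : Asy s) (ht : Asy t) : Asy (s * t) :=
  let ⟨P, hP⟩ := hs; let ⟨Q, hQ⟩ := ht; ⟨P * Q, small_mul hP hQ⟩

lemma Asy.sub {s t : ℕ → ℝ} (hs : Asy s) (ht : Asy t) : Asy (s - t) := by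
  obtain ⟨P, hP⟩ := hs
  obtain ⟨Q, hQ⟩ := ht
  refine ⟨P - Q, ?_⟩
  rw [map_sub]
  convert sub_mem hP hQ using 1
  ring

lemma Asy.smul {s : ℕ → ℝ} (hs : Asy s) (c : ℝ) : Asy (c • s) := by
  obtain ⟨P, hP⟩ := hs
  refine ⟨c • P, ?_⟩
  rw [map_smul, ← smul_sub]
  exact Small.smul_mem c hP

lemma reg_mul {s t : ℕ → ℝ} (hs : Asy s) (ht : Asy t) : reg (s * t) = reg s * reg t := by
  obtain ⟨P, hP⟩ := hs
  obtain ⟨Q, hQ⟩ := ht
  rw [reg_eq hP, reg_eq hQ, reg_eq (small_mul hP hQ), eval_mul]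

lemma asy_H : Asy H := ⟨X, by simp⟩

lemma reg_H : reg H = 0 := by simpa using reg_eq (s := H) (P := X) (by simp)

/-- Partial sums. -/
def psum {A : Type*} [AddCommMonoid A] (a : ℕ → A) (M : ℕ) : A := ∑ k ∈ range M, a k

lemma psum_conv {a : ℕ → ℝ} {m : ℕ} (h0 : ∀ k, 0 ≤ a k) (h : ∀ k, a k ≤ H k ^ m * w 1 k) :
    Asy (psum a) ∧ Tendsto (psum a) atTop (𝓝 (reg (psum a))) := by
  have hs : Summable a := Summable.of_nonneg_of_le h0 h (summable_H m)
  have key : psum a - aeval H (C (∑' k, a k)) ∈ Small := by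
    rw [← neg_mem_iff, neg_sub]
    have e : aeval H (C (∑' k, a k)) - psum a = fun M => ∑' k, a (k + M) := by
      funext M
      have := hs.sum_add_tsum_nat_add M
      simp only [aeval_C, Pi.sub_apply, psum, Pi.algebraMap_apply, Algebra.algebraMap_self,
        RingHom.id_apply]
      linarith
    rw [e]
    refine Small.of_le (fun M => tsum_nonneg fun k => h0 _) fun n =>
      ⟨_, tendsto_sum_nat_add fun k => H k ^ (m + n) * w 1 k, fun M => ?_⟩
    rw [← tsum_mul_right]
    refine Summable.tsum_le_tsum (fun k => ?_) (((summable_nat_add_iff M).2 hs).mul_right _)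
      ((summable_nat_add_iff M).2 (summable_H (m + n)))
    calc a (k + M) * H M ^ n ≤ (H (k + M) ^ m * w 1 (k + M)) * H (k + M) ^ n :=
          mul_le_mul (h _) (pow_le_pow_left₀ (H_nonneg M) (H_mono (by omega)) n)
            (pow_nonneg (H_nonneg M) n) ((h0 _).trans (h _))
      _ = _ := by ring
  refine ⟨⟨_, key⟩, ?_⟩
  rw [reg_eq key, eval_C]
  exact hs.hasSum.tendsto_sum_nat

/-- Sums over the triangle `m + k < M`. -/
def tri {A : Type*} [CommSemiring A] (a b : ℕ → A) : ℕ → A :=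
  psum fun n => ∑ p ∈ antidiagonal n, a p.1 * b p.2

lemma tri_comm {A : Type*} [CommSemiring A] (a b : ℕ → A) : tri a b = tri b a := by
  unfold tri
  congr 1
  funext n
  rw [← Nat.sum_antidiagonal_swap]
  exact sum_congr rfl fun p _ => mul_comm _ _

lemma tri_eq {A : Type*} [CommSemiring A] (a b : ℕ → A) (M : ℕ) :
    tri a b M = ∑ m ∈ range M, a m * psum b (M - m) := by
  simp only [tri, psum, Nat.sum_antidiagonal_eq_sum_range_succ fun i j => a i * b j, mul_sum]
  exact sum_range_diag_flip M fun i j => a i * b j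

lemma w_bound {m k M : ℕ} (h : M ≤ m + k) (hM : 0 < M) :
    w 1 m * w 0 k ≤ (w 1 m + w 0 m * w 0 k) / M := by
  have h0 : (0 : ℝ) < M := by exact_mod_cast hM
  rcases Nat.eq_zero_or_pos m with rfl | hm
  · simp
  rcases Nat.eq_zero_or_pos k with rfl | hk
  · simp only [w_zero, mul_zero, add_zero]; exact div_nonneg (w_nonneg _ _) h0.le
  have h1 : (0 : ℝ) < m := by exact_mod_cast hm
  have h2 : (0 : ℝ) < k := by exact_mod_cast hk
  have h3 : (M : ℝ) ≤ m + k := by exact_mod_cast h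
  rw [le_div_iff₀ h0]
  have : w 1 m + w 0 m * w 0 k = w 1 m * w 0 k * (m + k) := by
    simp only [w]; field_simp; ring
  rw [this]
  exact mul_le_mul_of_nonneg_left h3 (mul_nonneg (w_nonneg _ _) (w_nonneg _ _))

lemma tri_small {a b : ℕ → ℝ} {e : ℕ} (ha : ∀ k, 0 ≤ a k) (hb : ∀ k, 0 ≤ b k)
    (h : ∀ m k M, m < M → k < M → a m * b k ≤ H M ^ e * (w 1 m * w 0 k)) :
    psum a * psum b - tri a b ∈ Small := by
  have e1 : ∀ M, (psum a * psum b - tri a b) M =
      ∑ m ∈ range M, ∑ k ∈ Ico (M - m) M, a m * b k := by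
    intro M
    simp only [Pi.sub_apply, Pi.mul_apply, tri_eq]
    rw [psum, sum_mul, ← sum_sub_distrib]
    refine sum_congr rfl fun m _ => ?_
    rw [← mul_sum, sum_Ico_eq_sub _ (Nat.sub_le M m), mul_sub]
    rfl
  refine Small.of_le (fun M => ?_) fun n => ⟨fun M => H M ^ (e + n + 1) / M + H M ^ (e + n + 2) / M,
    by simpa using (tendsto_H_div _).add (tendsto_H_div _), fun M => ?_⟩
  · rw [e1]
    exact sum_nonneg fun m _ => sum_nonneg fun k _ => mul_nonneg (ha m) (hb k)
  · have key : ∑ m ∈ range M, ∑ k ∈ Ico (M - m) M, a m * b k ≤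
        ∑ m ∈ range M, H M ^ e * ((w 0 m + w 0 m * H M) / M) := by
      refine sum_le_sum fun m hm => ?_
      have hm' := mem_range.1 hm
      calc ∑ k ∈ Ico (M - m) M, a m * b k
          ≤ ∑ k ∈ Ico (M - m) M, H M ^ e * ((w 1 m + w 0 m * w 0 k) / M) := by
            refine sum_le_sum fun k hk => ?_
            have hk' := mem_Ico.1 hk
            exact (h m k M hm' hk'.2).trans (mul_le_mul_of_nonneg_left
              (w_bound (by omega) (by omega)) (pow_nonneg (H_nonneg M) e))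
        _ ≤ _ := by
            rw [← mul_sum, ← sum_div, sum_add_distrib, ← mul_sum, sum_const, Nat.card_Ico,
              show M - (M - m) = m by omega]
            refine mul_le_mul_of_nonneg_left (div_le_div_of_nonneg_right (add_le_add ?_ ?_)
              (by positivity)) (pow_nonneg (H_nonneg M) e)
            · rcases Nat.eq_zero_or_pos m with rfl | h0
              · simp
              · have : (0 : ℝ) < m := by exact_mod_cast h0
                simp only [w, nsmul_eq_mul]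
                apply le_of_eq; field_simp; ring
            · refine mul_le_mul_of_nonneg_left ?_ (w_nonneg _ _)
              exact sum_le_sum_of_subset_of_nonneg (fun k hk => mem_range.2 (mem_Ico.1 hk).2)
                fun k _ _ => w_nonneg 0 k
    rw [← mul_sum, ← sum_div, sum_add_distrib, ← sum_mul] at key
    rw [e1]
    refine (mul_le_mul_of_nonneg_right key (pow_nonneg (H_nonneg M) n)).trans_eq ?_
    change H M ^ e * ((H M + H M * H M) / M) * H M ^ n = _
    ring

lemma reg_tri {a b : ℕ → ℝ} (h : psum a * psum b - tri a b ∈ Small) (ha : Asy (psum a))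
    (hb : Asy (psum b)) : reg (tri a b) = reg (psum a) * reg (psum b) := by
  have := reg_small h
  rw [map_sub, reg_mul ha hb] at this
  linarith

end Pool.Agent.Lib.MP_56ed1a_nt
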