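import Mathlib

/-! Multiple zeta values, the depth filtration and the depth-graded pieces modulo `ζ(2)`. -/

namespace Pool.Agent.Lib.MP_56ed1a_nt

/-- `ζ(n₁,…,n_r) = ∑_{0 < k₁ < ⋯ < k_r} ∏ k_i ^ (-n_i)`. For `r = 0` this is `1`. -/
noncomputable def mzv {r : ℕ} (n : Fin r → ℕ) : ℝ :=
  ∑' k : {k : Fin r → ℕ // StrictMono k ∧ ∀ i, 0 < k i}, ∏ i, ((k.1 i : ℝ) ^ n i)⁻¹

/-- Convergent index: all entries are at least `1`, the last one is at least `2`. -/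
def Admissible {r : ℕ} (n : Fin r → ℕ) : Prop :=
  (∀ i, 1 ≤ n i) ∧ ∀ i : Fin r, i.val + 1 = r → 2 ≤ n i

/-- `𝔇_r 𝒵_N`: the rational span of the multiple zeta values of weight `N` and depth at most `r`. -/
noncomputable def depthFil (r N : ℕ) : Submodule ℚ ℝ :=
  Submodule.span ℚ
    {x | ∃ (s : ℕ) (n : Fin s → ℕ), s ≤ r ∧ Admissible n ∧ ∑ i, n i = N ∧ x = mzv n}

/-- The weight `N` part `ζ(2) 𝒵_{N-2}` of the ideal `ζ(2) 𝒵`. -/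
noncomputable def zetaTwoPart (N : ℕ) : Submodule ℚ ℝ :=
  Submodule.span ℚ
    {x | ∃ (s : ℕ) (n : Fin s → ℕ), Admissible n ∧ ∑ i, n i + 2 = N ∧ x = mzv ![2] * mzv n}

/-- For `r ≥ 1`: `𝒵_{N,r} = 𝔇_r 𝒵_N / (𝔇_{r-1} 𝒵_N + 𝔇_r 𝒵_N ∩ ζ(2) 𝒵)`. -/
abbrev Graded (N r : ℕ) : Type :=
  depthFil r N ⧸ (depthFil (r - 1) N ⊔ (depthFil r N ⊓ zetaTwoPart N)).submoduleOf (depthFil r N)

/-- `𝒵^odd_{N,r}`: the span of the classes of the `ζ(n)` of depth `r` and weight `N` with all `n_i`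
odd and at least `3`. -/
noncomputable def oddPart (N r : ℕ) : Submodule ℚ (Graded N r) :=
  Submodule.span ℚ
    {q | ∃ n : Fin r → ℕ, (∀ i, Odd (n i) ∧ 3 ≤ n i) ∧ ∑ i, n i = N ∧
      ∃ h : mzv n ∈ depthFil r N, q = Submodule.Quotient.mk ⟨mzv n, h⟩}

end Pool.Agent.Lib.MP_56ed1a_nt
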