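import Mathlib

/-! The boundary step: consequences of the linearised double shuffle relations on coordinate planes. -/

namespace Pool.Agent.Lib.MP_56ed1a_nt

/-- The sum over sign changes, in the coordinates in which `f` is even. -/
def E (f : ℚ → ℚ → ℚ → ℚ) (x y z : ℚ) : ℚ :=
  f (y + z - x) (x + z - y) (x + y - z) + f (y + z + x) (z - x - y) (y - x - z) +
    f (z - y - x) (x + z + y) (x - y - z) + f (y - z - x) (x - z - y) (x + y + z)

lemma add3 {a b c a' b' c' : ℚ} (h1 : a = a') (h2 : b = b') (h3 : c = c') (h : a' + b' + c' = 0) :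
    a + b + c = 0 := by rw [h1, h2, h3, h]

lemma add4 {a b c d a' b' c' d' : ℚ} (h1 : a = a') (h2 : b = b') (h3 : c = c') (h4 : d = d') :
    a + b + c + d = a' + b' + c' + d' := by rw [h1, h2, h3, h4]

theorem edge (f : ℚ → ℚ → ℚ → ℚ)
    (N1 : ∀ {a b c a' b' c' : ℚ}, a ^ 2 = a' ^ 2 → b ^ 2 = b' ^ 2 → c ^ 2 = c' ^ 2 →
      f a b c = f a' b' c')
    (N2 : ∀ {a b c a' b' c' : ℚ}, a ^ 2 = c' ^ 2 → b ^ 2 = b' ^ 2 → c ^ 2 = a' ^ 2 →
      f a b c = f a' b' c')
    (R1 : ∀ a b c, f a b c + f b c a + f c a b = 0)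
    (R2 : ∀ a b c, f (a + c) b (a - c) + f (b + a) c (b - a) + f (c + b) a (c - b) = 0)
    (IE : ∀ x y z, E f x y z - E f 0 y z - E f x 0 z - E f x y 0 + E f x 0 0 + E f 0 y 0 +
      E f 0 0 z - E f 0 0 0 = 0) (x y : ℚ) :
    E f 0 x y = 0 ∧ E f x 0 y = 0 ∧ f (2 * x) 0 (2 * y) = 0 := by
  have e0 : E f y x y =
      f x (x - 2 * y) x + f (x - 2 * y) x (x + 2 * y) + f x (x + 2 * y) x + f (x - 2 * y) x (x + 2 * y) := by
    unfold E
    exact add4 (N1 (by ring) (by ring) (by ring)) (N2 (by ring) (by ring) (by ring))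
      (N1 (by ring) (by ring) (by ring)) (N1 (by ring) (by ring) (by ring))
  have e1 : E f 0 x y =
      f (x - y) (x - y) (x + y) + f (x - y) (x - y) (x + y) + f (x - y) (x + y) (x + y) + f (x - y) (x + y) (x + y) := by
    unfold E
    exact add4 (N2 (by ring) (by ring) (by ring)) (N2 (by ring) (by ring) (by ring))
      (N1 (by ring) (by ring) (by ring)) (N1 (by ring) (by ring) (by ring))
  have e2 : E f y 0 y =
      f 0 (2 * y) 0 + f (2 * y) 0 (2 * y) + f 0 (2 * y) 0 + f (2 * y) 0 (2 * y) := by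
    unfold E
    exact add4 (N1 (by ring) (by ring) (by ring)) (N1 (by ring) (by ring) (by ring))
      (N1 (by ring) (by ring) (by ring)) (N1 (by ring) (by ring) (by ring))
  have e3 : E f y x 0 =
      f (x - y) (x - y) (x + y) + f (x - y) (x + y) (x + y) + f (x - y) (x + y) (x + y) + f (x - y) (x - y) (x + y) := by
    unfold E
    exact add4 (N1 (by ring) (by ring) (by ring)) (N2 (by ring) (by ring) (by ring))
      (N2 (by ring) (by ring) (by ring)) (N1 (by ring) (by ring) (by ring))
  have e4 : E f y 0 0 =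
      f y y y + f y y y + f y y y + f y y y := by
    unfold E
    exact add4 (N1 (by ring) (by ring) (by ring)) (N1 (by ring) (by ring) (by ring))
      (N1 (by ring) (by ring) (by ring)) (N1 (by ring) (by ring) (by ring))
  have e5 : E f 0 x 0 =
      f x x x + f x x x + f x x x + f x x x := by
    unfold E
    exact add4 (N1 (by ring) (by ring) (by ring)) (N1 (by ring) (by ring) (by ring))
      (N1 (by ring) (by ring) (by ring)) (N1 (by ring) (by ring) (by ring))
  have e6 : E f 0 0 y =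
      f y y y + f y y y + f y y y + f y y y := by
    unfold E
    exact add4 (N1 (by ring) (by ring) (by ring)) (N1 (by ring) (by ring) (by ring))
      (N1 (by ring) (by ring) (by ring)) (N1 (by ring) (by ring) (by ring))
  have e7 : E f 0 0 0 =
      f 0 0 0 + f 0 0 0 + f 0 0 0 + f 0 0 0 := by
    unfold E
    exact add4 (N1 (by ring) (by ring) (by ring)) (N1 (by ring) (by ring) (by ring))
      (N1 (by ring) (by ring) (by ring)) (N1 (by ring) (by ring) (by ring))
  have h0 : -(4 * f 0 0 0) - 2 * f 0 (2 * y) 0 + 8 * f y y y - 2 * f (2 * y) 0 (2 * y) + 2 * f (x - 2 * y) x (x + 2 * y) - 4 * f (x - y) (x - y) (x + y) - 4 * f (x - y) (x + y) (x + y) + f x (x - 2 * y) x + 4 * f x x x + f x (x + 2 * y) x = 0 := by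
    linear_combination IE y x y - e0 + e1 + e2 + e3 - e4 - e5 - e6 + e7
  have h1 : f (x - 2 * y) x (x + 2 * y) + f (x - 2 * y) x (x + 2 * y) + f 0 (2 * y) (2 * x) = 0 := by
    exact add3 (N2 (by ring) (by ring) (by ring)) (N2 (by ring) (by ring) (by ring))
      (N2 (by ring) (by ring) (by ring)) (R2 (2 * y) x x)
  have e8 : E f y x x =
      f y y (2 * x - y) + f y y (2 * x + y) + f y (2 * x + y) (2 * x - y) + f y (2 * x - y) (2 * x + y) := by
    unfold E
    exact add4 (N2 (by ring) (by ring) (by ring)) (N2 (by ring) (by ring) (by ring))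
      (N1 (by ring) (by ring) (by ring)) (N1 (by ring) (by ring) (by ring))
  have e9 : E f 0 x x =
      f 0 0 (2 * x) + f 0 0 (2 * x) + f 0 (2 * x) (2 * x) + f 0 (2 * x) (2 * x) := by
    unfold E
    exact add4 (N2 (by ring) (by ring) (by ring)) (N2 (by ring) (by ring) (by ring))
      (N1 (by ring) (by ring) (by ring)) (N1 (by ring) (by ring) (by ring))
  have e10 : E f y 0 x =
      f (x - y) (x + y) (x - y) + f (x + y) (x - y) (x + y) + f (x - y) (x + y) (x - y) + f (x + y) (x - y) (x + y) := by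
    unfold E
    exact add4 (N1 (by ring) (by ring) (by ring)) (N1 (by ring) (by ring) (by ring))
      (N1 (by ring) (by ring) (by ring)) (N1 (by ring) (by ring) (by ring))
  have e11 : E f 0 0 x =
      f x x x + f x x x + f x x x + f x x x := by
    unfold E
    exact add4 (N1 (by ring) (by ring) (by ring)) (N1 (by ring) (by ring) (by ring))
      (N1 (by ring) (by ring) (by ring)) (N1 (by ring) (by ring) (by ring))
  have h2 : -(4 * f 0 0 0) - 2 * f 0 0 (2 * x) - 2 * f 0 (2 * x) (2 * x) + 4 * f y y y + f y y (2 * x - y) + f y y (2 * x + y) + f y (2 * x - y) (2 * x + y) + f y (2 * x + y) (2 * x - y) - 2 * f (x - y) (x - y) (x + y) - 2 * f (x - y) (x + y) (x - y) - 2 * f (x - y) (x + y) (x + y) + 8 * f x x x - 2 * f (x + y) (x - y) (x + y) = 0 := by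
    linear_combination IE y x x - e8 + e9 + e10 + e3 - e4 - e5 - e11 + e7
  have h3 : f (2 * x - y) y (2 * x + y) + f 0 (2 * x) (2 * y) + f (2 * x - y) y (2 * x + y) = 0 := by
    exact add3 (N2 (by ring) (by ring) (by ring)) (N2 (by ring) (by ring) (by ring))
      (N2 (by ring) (by ring) (by ring)) (R2 y y (2 * x))
  have h4 : f y (2 * x - y) (2 * x + y) + f y (2 * x + y) (2 * x - y) + f (2 * x - y) y (2 * x + y) = 0 := by
    exact add3 (N1 (by ring) (by ring) (by ring)) (N2 (by ring) (by ring) (by ring))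
      (N2 (by ring) (by ring) (by ring)) (R1 y (2 * x - y) (2 * x + y))
  have h5 : f (x + y) (x - y) (x + y) + f (x - y) (x + y) (x - y) + f (2 * y) 0 (2 * x) = 0 := by
    exact add3 (N1 (by ring) (by ring) (by ring)) (N1 (by ring) (by ring) (by ring))
      (N2 (by ring) (by ring) (by ring)) (R2 0 (x - y) (x + y))
  have h6 : f 0 (2 * y) (2 * x) + f 0 (2 * x) (2 * y) + f (2 * y) 0 (2 * x) = 0 := by
    exact add3 (N1 (by ring) (by ring) (by ring)) (N2 (by ring) (by ring) (by ring))
      (N2 (by ring) (by ring) (by ring)) (R1 0 (2 * y) (2 * x))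
  have h7 : f (x - y) (x + y) (x + y) + f (x - y) (x + y) (x + y) + f (x + y) (x - y) (x + y) = 0 := by
    exact add3 (N1 (by ring) (by ring) (by ring)) (N2 (by ring) (by ring) (by ring))
      (N1 (by ring) (by ring) (by ring)) (R1 (x - y) (x + y) (x + y))
  have h8 : f (x - y) (x - y) (x + y) + f (x - y) (x + y) (x - y) + f (x - y) (x - y) (x + y) = 0 := by
    exact add3 (N1 (by ring) (by ring) (by ring)) (N1 (by ring) (by ring) (by ring))
      (N2 (by ring) (by ring) (by ring)) (R1 (x - y) (x - y) (x + y))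
  have h9 : f (2 * x) 0 (2 * x) + f 0 (2 * x) 0 + f (2 * x) 0 (2 * x) = 0 := by
    exact add3 (N1 (by ring) (by ring) (by ring)) (N1 (by ring) (by ring) (by ring))
      (N1 (by ring) (by ring) (by ring)) (R2 0 0 (2 * x))
  have h10 : f 0 (2 * x) (2 * x) + f 0 (2 * x) (2 * x) + f (2 * x) 0 (2 * x) = 0 := by
    exact add3 (N1 (by ring) (by ring) (by ring)) (N2 (by ring) (by ring) (by ring))
      (N1 (by ring) (by ring) (by ring)) (R1 0 (2 * x) (2 * x))
  have h11 : f 0 0 (2 * x) + f 0 (2 * x) 0 + f 0 0 (2 * x) = 0 := by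
    exact add3 (N1 (by ring) (by ring) (by ring)) (N1 (by ring) (by ring) (by ring))
      (N2 (by ring) (by ring) (by ring)) (R1 0 0 (2 * x))
  have h12 : f x x x + f x x x + f 0 0 (2 * x) = 0 := by
    exact add3 (N1 (by ring) (by ring) (by ring)) (N1 (by ring) (by ring) (by ring))
      (N2 (by ring) (by ring) (by ring)) (R2 0 x x)
  have h13 : f x x x + f x x x + f x x x = 0 := by
    exact add3 (N1 (by ring) (by ring) (by ring)) (N1 (by ring) (by ring) (by ring))
      (N1 (by ring) (by ring) (by ring)) (R1 x x x)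
  have h14 : f y y y + f y y y + f y y y = 0 := by
    exact add3 (N1 (by ring) (by ring) (by ring)) (N1 (by ring) (by ring) (by ring))
      (N1 (by ring) (by ring) (by ring)) (R1 y y y)
  have h15 : f 0 0 0 + f 0 0 0 + f 0 0 0 = 0 := by
    exact add3 (N1 (by ring) (by ring) (by ring)) (N1 (by ring) (by ring) (by ring))
      (N1 (by ring) (by ring) (by ring)) (R1 0 0 0)
  have h16 : f (2 * y) 0 (2 * y) + f 0 (2 * y) 0 + f (2 * y) 0 (2 * y) = 0 := by
    exact add3 (N1 (by ring) (by ring) (by ring)) (N1 (by ring) (by ring) (by ring))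
      (N1 (by ring) (by ring) (by ring)) (R2 0 0 (2 * y))
  have h17 : f 0 0 (2 * y) + f 0 (2 * y) 0 + f 0 0 (2 * y) = 0 := by
    exact add3 (N1 (by ring) (by ring) (by ring)) (N1 (by ring) (by ring) (by ring))
      (N2 (by ring) (by ring) (by ring)) (R1 0 0 (2 * y))
  have h18 : f y y y + f y y y + f 0 0 (2 * y) = 0 := by
    exact add3 (N1 (by ring) (by ring) (by ring)) (N1 (by ring) (by ring) (by ring))
      (N2 (by ring) (by ring) (by ring)) (R2 0 y y)
  have h19 : f x x (x + 2 * y) + f x (x + 2 * y) x + f x x (x + 2 * y) = 0 := by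
    exact add3 (N1 (by ring) (by ring) (by ring)) (N1 (by ring) (by ring) (by ring))
      (N2 (by ring) (by ring) (by ring)) (R1 x x (x + 2 * y))
  have h20 : f x x (x + 2 * y) + f (x - y) (x + y) (x + y) + f y y (2 * x + y) = 0 := by
    exact add3 (N2 (by ring) (by ring) (by ring)) (N2 (by ring) (by ring) (by ring))
      (N2 (by ring) (by ring) (by ring)) (R2 y x (x + y))
  have h21 : f (x - 2 * y) x x + f (x - 2 * y) x x + f x (x - 2 * y) x = 0 := by
    exact add3 (N1 (by ring) (by ring) (by ring)) (N2 (by ring) (by ring) (by ring))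
      (N1 (by ring) (by ring) (by ring)) (R1 (x - 2 * y) x x)
  have h22 : f (x - y) (x - y) (x + y) + f (x - 2 * y) x x + f y y (2 * x - y) = 0 := by
    exact add3 (N2 (by ring) (by ring) (by ring)) (N2 (by ring) (by ring) (by ring))
      (N2 (by ring) (by ring) (by ring)) (R2 y (x - y) x)
  have e12 : E f x 0 y =
      f (x - y) (x + y) (x - y) + f (x + y) (x - y) (x + y) + f (x - y) (x + y) (x - y) + f (x + y) (x - y) (x + y) := by
    unfold E
    exact add4 (N1 (by ring) (by ring) (by ring)) (N1 (by ring) (by ring) (by ring))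
      (N1 (by ring) (by ring) (by ring)) (N1 (by ring) (by ring) (by ring))
  refine ⟨?_, ?_, ?_⟩
  · linear_combination e1 + (-1/2) * h0 + (1/2) * h1 + (1) * h2 + (1/2) * h3 + (-1) * h4 +
      (1/2) * h5 + (-1/2) * h6 + (3/2) * h7 + (3/2) * h8 + (-1/2) * h9 + (1) * h10 + (1/2) * h11 +
      (1) * h12 + (-8/3) * h13 + (-2/3) * h14 + (2/3) * h15 + (-1/2) * h16 + (-1/2) * h17 +
      (1) * h18 + (1/2) * h19 + (-1) * h20 + (1/2) * h21 + (-1) * h22
  · linear_combination e12 + (-1) * h7 + (1) * h0 + (-1) * h1 + (-2) * h2 + (-1) * h3 + (2) * h4 +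
      (-1) * h5 + (1) * h6 + (-1) * h8 + (1) * h9 + (-2) * h10 + (-1) * h11 + (-2) * h12 +
      (16/3) * h13 + (4/3) * h14 + (-4/3) * h15 + (1) * h16 + (1) * h17 + (-2) * h18 +
      (-1) * h19 + (2) * h20 + (-1) * h21 + (2) * h22
  · rw [show f (2 * x) 0 (2 * y) = f (2 * y) 0 (2 * x) from N2 rfl rfl rfl]
    linear_combination (-1/2) * h6 + (3/2) * h5 + (1/2) * h7 + (1/2) * h8 + (-1/2) * h0 +
        (1/2) * h1 + (1) * h2 + (1/2) * h3 + (-1) * h4 + (-1/2) * h9 + (1) * h10 + (1/2) * h11 +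
        (1) * h12 + (-8/3) * h13 + (-2/3) * h14 + (2/3) * h15 + (-1/2) * h16 + (-1/2) * h17 +
        (1) * h18 + (1/2) * h19 + (-1) * h20 + (1/2) * h21 + (-1) * h22

end Pool.Agent.Lib.MP_56ed1a_nt
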