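import Mathlib

/-! A polynomial in four variables all of whose monomials miss a variable and which vanishes on the
four hyperplanes `t₀ ± t₁ ± t₂ ± t₃ = 0` (even number of minus signs) is zero. -/

namespace Pool.Agent.Lib.MP_56ed1a_nt

open MvPolynomial

/-- Rational polynomials in four variables. -/
abbrev R4 := MvPolynomial (Fin 4) ℚ

/-- The inner product for which the monomials are orthonormal. -/
noncomputable def ip0 (p q : R4) : ℚ := ∑ m ∈ p.support, coeff m p * coeff m q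

lemma ip0_eq (p q : R4) (s : Finset (Fin 4 →₀ ℕ)) (h : p.support ⊆ s) :
    ip0 p q = ∑ m ∈ s, coeff m p * coeff m q := by
  refine Finset.sum_subset h fun m _ hm => ?_
  rw [notMem_support_iff.1 hm, zero_mul]

/-- The inner product as a bilinear map. -/
noncomputable def ip : R4 →ₗ[ℚ] R4 →ₗ[ℚ] ℚ :=
  LinearMap.mk₂ ℚ ip0
    (fun p p' q => by
      classical
      rw [ip0_eq (p + p') q (p.support ∪ p'.support) support_add,
        ip0_eq p q (p.support ∪ p'.support) Finset.subset_union_left,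
        ip0_eq p' q (p.support ∪ p'.support) Finset.subset_union_right, ← Finset.sum_add_distrib]
      exact Finset.sum_congr rfl fun m _ => by rw [coeff_add, add_mul])
    (fun c p q => by
      rw [ip0_eq (c • p) q p.support support_smul, ip0, smul_eq_mul, Finset.mul_sum]
      exact Finset.sum_congr rfl fun m _ => by rw [coeff_smul, smul_eq_mul, mul_assoc])
    (fun p q q' => by
      simp only [ip0, coeff_add, mul_add, Finset.sum_add_distrib])
    (fun c p q => by
      simp only [ip0, coeff_smul, smul_eq_mul, Finset.mul_sum]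
      exact Finset.sum_congr rfl fun m _ => by ring)

lemma ip_apply (p q : R4) : ip p q = ∑ m ∈ p.support, coeff m p * coeff m q := rfl

lemma ip_comm (p q : R4) : ip p q = ip q p := by
  classical
  change ip0 p q = ip0 q p
  rw [ip0_eq p q (p.support ∪ q.support) Finset.subset_union_left,
    ip0_eq q p (p.support ∪ q.support) Finset.subset_union_right]
  exact Finset.sum_congr rfl fun m _ => mul_comm _ _

lemma ip_nonneg (p : R4) : 0 ≤ ip p p := Finset.sum_nonneg fun _ _ => mul_self_nonneg _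

lemma eq_zero_of_ip {p : R4} (h : ip p p ≤ 0) : p = 0 := by
  have h1 := (Finset.sum_eq_zero_iff_of_nonneg fun m _ => mul_self_nonneg (coeff m p)).1
    (le_antisymm h (ip_nonneg p))
  ext m
  by_cases hm : m ∈ p.support
  · simpa using h1 m hm
  · simpa using hm

lemma ip_X_mul (i : Fin 4) (p q : R4) : ip (X i * p) (X i * q) = ip p q := by
  rw [ip_apply, ip_apply, support_X_mul, Finset.sum_map]
  refine Finset.sum_congr rfl fun m _ => ?_
  simp [coeff_X_mul]

lemma ip_supported {i : Fin 4} {p : R4} (hp : p ∈ supported ℚ {j | j ≠ i}) (q : R4) :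
    ip p (X i * q) = 0 := by
  classical
  rw [ip_apply]
  refine Finset.sum_eq_zero fun m hm => ?_
  rw [coeff_X_mul', if_neg, mul_zero]
  intro hi
  exact mem_supported.1 hp ((mem_vars_iff_mem_support i).2 ⟨m, hm, hi⟩) rfl

lemma ip_sum4 (a b c d : R4) :
    ip (a + b + c + d) (a + b + c + d) ≤ 4 * (ip a a + ip b b + ip c c + ip d d) := by
  have h1 := ip_nonneg (a - b)
  have h2 := ip_nonneg (a - c)
  have h3 := ip_nonneg (a - d)
  have h4 := ip_nonneg (b - c)
  have h5 := ip_nonneg (b - d)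
  have h6 := ip_nonneg (c - d)
  simp only [map_add, map_sub, LinearMap.add_apply, LinearMap.sub_apply] at *
  linarith

lemma ip_orth4 (a b c d : R4) :
    ip (a - b - c - d) (a - b - c - d) + ip (b - a - c - d) (b - a - c - d) +
      ip (c - a - b - d) (c - a - b - d) + ip (d - a - b - c) (d - a - b - c) =
      4 * (ip a a + ip b b + ip c c + ip d d) := by
  simp only [map_sub, LinearMap.sub_apply]
  ring

theorem toeplitz (G K : R4)
    (hG : G = (X 0 + X 1 + X 2 + X 3) * (X 0 + X 1 - X 2 - X 3) * (X 0 - X 1 + X 2 - X 3) *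
      (X 0 - X 1 - X 2 + X 3) * K)
    (ho : ip G (X 0 * (X 1 * (X 2 * (X 3 * K)))) = 0) : G = 0 := by
  let y : Fin 4 → R4 := fun i => X i * (X i * K)
  have hy : ∀ i, ip (y i) (y i) = ip K K := fun i => by simp only [y, ip_X_mul]
  have h1 := ip_orth4 (y 0) (y 1) (y 2) (y 3)
  have h2 := ip_sum4 (X 0 * (X 0 * (y 0 - y 1 - y 2 - y 3))) (X 1 * (X 1 * (y 1 - y 0 - y 2 - y 3)))
    (X 2 * (X 2 * (y 2 - y 0 - y 1 - y 3))) (X 3 * (X 3 * (y 3 - y 0 - y 1 - y 2)))
  simp only [ip_X_mul] at h2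
  rw [h1, hy, hy, hy, hy] at h2
  set M : R4 := X 0 * (X 1 * (X 2 * (X 3 * K))) with hM
  have h3 : X 0 * (X 0 * (y 0 - y 1 - y 2 - y 3)) + X 1 * (X 1 * (y 1 - y 0 - y 2 - y 3)) +
      X 2 * (X 2 * (y 2 - y 0 - y 1 - y 3)) + X 3 * (X 3 * (y 3 - y 0 - y 1 - y 2)) =
      G - (8 : ℚ) • M := by
    rw [hG, hM, Algebra.smul_def, map_ofNat]
    simp only [y]
    ring
  have h4 : ip M M = ip K K := by simp only [hM, ip_X_mul]
  rw [h3] at h2
  simp only [map_sub, map_smul, LinearMap.sub_apply, LinearMap.smul_apply, smul_eq_mul,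
    ip_comm M G, ho, h4] at h2
  exact eq_zero_of_ip (by linarith)

/-- The substitution `X 0 ↦ L`. -/
noncomputable def sub0 (L : R4) : R4 →ₐ[ℚ] R4 := aeval fun i => if i = 0 then L else X i

lemma dvd_sub_sub0 (L p : R4) : X 0 - L ∣ p - sub0 L p := by
  induction p using MvPolynomial.induction_on with
  | C a => simp [sub0]
  | add p q hp hq =>
    have := hp.add hq
    rw [map_add]
    convert this using 1
    ring
  | mul_X p i hp =>
    rw [map_mul]
    have h : X 0 - L ∣ X i - sub0 L (X i) := by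
      by_cases hi : i = 0 <;> simp [sub0, hi]
    have := (hp.mul_right (X i)).add (h.mul_left (sub0 L p))
    convert this using 1
    ring

lemma dvd_of_sub0 {L p q : R4} (h : sub0 L (q * p) = 0) (hq : sub0 L q ≠ 0) : X 0 - L ∣ p := by
  rw [map_mul] at h
  have := dvd_sub_sub0 L p
  rwa [(mul_eq_zero.1 h).resolve_left hq, sub_zero] at this

lemma eval_sub0 (L p : R4) (t : Fin 4 → ℚ) :
    aeval t (sub0 L p) = aeval (fun i => if i = 0 then aeval t L else t i) p := by
  rw [sub0, ← AlgHom.comp_apply, comp_aeval]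
  congr 2
  funext i
  split_ifs <;> simp

lemma sub0_eq_zero {L p : R4}
    (h : ∀ t : Fin 4 → ℚ, aeval (fun i => if i = 0 then aeval t L else t i) p = 0) :
    sub0 L p = 0 := by
  apply MvPolynomial.funext
  intro t
  have := eval_sub0 L p t
  rw [h] at this
  rw [map_zero]
  exact this

lemma sub0_ne_zero {L p : R4} (t : Fin 4 → ℚ)
    (h : aeval (fun i => if i = 0 then aeval t L else t i) p ≠ 0) : sub0 L p ≠ 0 := by
  intro h0
  rw [← eval_sub0, h0, map_zero] at h
  exact h rfl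

theorem vanish (G0 G1 G2 G3 : R4) (h0 : G0 ∈ supported ℚ {j | j ≠ (0 : Fin 4)})
    (h1 : G1 ∈ supported ℚ {j | j ≠ (1 : Fin 4)}) (h2 : G2 ∈ supported ℚ {j | j ≠ (2 : Fin 4)})
    (h3 : G3 ∈ supported ℚ {j | j ≠ (3 : Fin 4)})
    (h : ∀ t : Fin 4 → ℚ, (t 0 = - t 1 - t 2 - t 3 ∨ t 0 = - t 1 + t 2 + t 3 ∨
      t 0 = t 1 - t 2 + t 3 ∨ t 0 = t 1 + t 2 - t 3) → aeval t (G0 + G1 + G2 + G3) = 0) :
    G0 + G1 + G2 + G3 = 0 := by
  set G := G0 + G1 + G2 + G3 with hG
  have a0 : sub0 (- X 1 - X 2 - X 3) G = 0 := sub0_eq_zero fun t => h _ (by simp)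
  have a1 : sub0 (- X 1 + X 2 + X 3) G = 0 := sub0_eq_zero fun t => h _ (by simp)
  have a2 : sub0 (X 1 - X 2 + X 3) G = 0 := sub0_eq_zero fun t => h _ (by simp)
  have a3 : sub0 (X 1 + X 2 - X 3) G = 0 := sub0_eq_zero fun t => h _ (by simp)
  obtain ⟨K0, e0⟩ := dvd_of_sub0 (q := 1) (by rw [one_mul]; exact a0) (by simp)
  rw [e0] at a1
  obtain ⟨K1, e1⟩ := dvd_of_sub0 a1 (sub0_ne_zero ![0, 1, 2, 4] (by simp; norm_num))
  rw [e1, ← mul_assoc] at e0
  rw [e0] at a2
  obtain ⟨K2, e2⟩ := dvd_of_sub0 a2 (sub0_ne_zero ![0, 1, 2, 4] (by simp; norm_num))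
  rw [e2, ← mul_assoc] at e0
  rw [e0] at a3
  obtain ⟨K3, e3⟩ := dvd_of_sub0 a3 (sub0_ne_zero ![0, 1, 2, 4] (by simp; norm_num))
  rw [e3, ← mul_assoc] at e0
  refine toeplitz G K3 (by rw [e0]; ring) ?_
  rw [hG]
  simp only [map_add, LinearMap.add_apply]
  rw [ip_supported h0,
    show X 0 * (X 1 * (X 2 * (X 3 * K3))) = X 1 * (X 0 * (X 2 * (X 3 * K3))) by ring, ip_supported h1,
    show X 1 * (X 0 * (X 2 * (X 3 * K3))) = X 2 * (X 0 * (X 1 * (X 3 * K3))) by ring, ip_supported h2,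
    show X 2 * (X 0 * (X 1 * (X 3 * K3))) = X 3 * (X 0 * (X 1 * (X 2 * K3))) by ring, ip_supported h3]
  simp

end Pool.Agent.Lib.MP_56ed1a_nt
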