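import Pool.Agent.Lib.MP_56ed1a_nt.Gen
import Pool.Agent.Lib.MP_56ed1a_nt.Edge
import Pool.Agent.Lib.MP_56ed1a_nt.Toeplitz

/-! A solution of the linearised double shuffle equations in depth three whose coefficients at the
monomials with all exponents even and positive vanish is zero. -/

namespace Pool.Agent.Lib.MP_56ed1a_nt

open Finset MvPolynomial

/-- The generating polynomial with polynomial arguments. -/
noncomputable def Q3 {A : Type} [CommRing A] [Algebra ℚ A] (d : ℕ) (c : ℕ → ℕ → ℕ → ℚ) (x y z : A) : A :=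
  ∑ p ∈ T3 d, c p.1 p.2.1 p.2.2 • (x ^ p.1 * y ^ p.2.1 * z ^ p.2.2)

lemma map_Q3 {A : Type} [CommRing A] [Algebra ℚ A] (φ : A →ₐ[ℚ] ℚ) (d : ℕ) (c : ℕ → ℕ → ℕ → ℚ)
    (x y z : A) : φ (Q3 d c x y z) = P3 d c (φ x) (φ y) (φ z) := by
  simp only [Q3, P3, map_sum, map_smul, map_mul, map_pow, smul_eq_mul]
  exact sum_congr rfl fun p _ => mul_comm _ _

lemma Q3_mem {A : Type} [CommRing A] [Algebra ℚ A] (S : Subalgebra ℚ A) (d : ℕ)
    (c : ℕ → ℕ → ℕ → ℚ) {x y z : A} (hx : x ∈ S) (hy : y ∈ S) (hz : z ∈ S) : Q3 d c x y z ∈ S :=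
  S.sum_mem fun _ _ => S.smul_mem (S.mul_mem (S.mul_mem (S.pow_mem hx _) (S.pow_mem hy _))
    (S.pow_mem hz _)) _

lemma even_of_neg {g : ℚ → ℚ} (h : ∀ a, g (-a) = g a) {a b : ℚ} (e : a ^ 2 = b ^ 2) : g a = g b := by
  rcases sq_eq_sq_iff_eq_or_eq_neg.1 e with rfl | rfl
  · rfl
  · exact h b

/-- The sum over all sign changes. -/
def S8 (ρ : ℚ → ℚ → ℚ → ℚ) (x y z : ℚ) : ℚ :=
  ρ x y z + ρ (-x) y z + ρ x (-y) z + ρ x y (-z) + ρ (-x) (-y) (-z) + ρ x (-y) (-z) +
    ρ (-x) y (-z) + ρ (-x) (-y) z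

theorem depth3 {d : ℕ} {c : ℕ → ℕ → ℕ → ℚ} (hd : 1 ≤ d)
    (S1 : ∀ i j k, i + j + k = d → c i j k + c j i k + c j k i = 0) (κ : ℚ)
    (S2 : ∀ u v w, P3 d c u (u + v) (u + v + w) + P3 d c v (u + v) (u + v + w) +
      P3 d c v (v + w) (u + v + w) = κ * v ^ d)
    (h0 : ∀ i j k, i + j + k = d → Even i ∧ 2 ≤ i → Even j ∧ 2 ≤ j → Even k ∧ 2 ≤ k → c i j k = 0)
    {i j k : ℕ} (hijk : i + j + k = d) : c i j k = 0 := by
  have A : ∀ x y z, P3 d c x y z + P3 d c y x z + P3 d c y z x = 0 := by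
    intro x y z
    rw [P3, P3, P3, sum_T3_swap d fun i j k => (y ^ i * x ^ j * z ^ k) • c i j k,
      sum_T3_rot d fun i j k => (y ^ i * z ^ j * x ^ k) • c i j k, ← sum_add_distrib,
      ← sum_add_distrib]
    refine sum_eq_zero fun p hp => ?_
    simp only [smul_eq_mul]
    linear_combination x ^ p.1 * y ^ p.2.1 * z ^ p.2.2 * S1 _ _ _ (mem_T3.1 hp)
  have B0 : ∀ a b s a' b', a' = b - a → b' = s - a →
      P3 d c a b s + P3 d c a' b s + P3 d c a' b' s = κ * a' ^ d := by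
    rintro a b s _ _ rfl rfl
    have := S2 a (b - a) (s - b)
    rwa [show a + (b - a) = b by ring, show b + (s - b) = s by ring,
      show b - a + (s - b) = s - a by ring] at this
  have hκ : κ = 0 := by
    have h1 := B0 0 1 1 1 1 (by ring) (by ring)
    have h2 := B0 0 0 1 0 1 (by ring) (by ring)
    have h3 := B0 1 1 1 0 0 (by ring) (by ring)
    rw [zero_pow (by omega)] at h2 h3
    rw [one_pow] at h1
    linarith
  have IE8 : ∀ x y z : ℚ, ∑ p ∈ T3 d, ((x ^ p.1 - 0 ^ p.1) + ((-x) ^ p.1 - 0 ^ p.1)) *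
      ((y ^ p.2.1 - 0 ^ p.2.1) + ((-y) ^ p.2.1 - 0 ^ p.2.1)) *
      ((z ^ p.2.2 - 0 ^ p.2.2) + ((-z) ^ p.2.2 - 0 ^ p.2.2)) * c p.1 p.2.1 p.2.2 = 0 := by
    intro x y z
    refine sum_eq_zero fun p hp => ?_
    by_cases h1 : Even p.1 ∧ 2 ≤ p.1
    · by_cases h2 : Even p.2.1 ∧ 2 ≤ p.2.1
      · by_cases h3 : Even p.2.2 ∧ 2 ≤ p.2.2
        · rw [h0 _ _ _ (mem_T3.1 hp) h1 h2 h3, mul_zero]
        · rw [sign_factor _ z h3]; ring
      · rw [sign_factor _ y h2]; ring
    · rw [sign_factor _ x h1]; ring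
  have IE9 : ∀ x y z, S8 (P3 d c) x y z - S8 (P3 d c) 0 y z - S8 (P3 d c) x 0 z -
      S8 (P3 d c) x y 0 + S8 (P3 d c) x 0 0 + S8 (P3 d c) 0 y 0 + S8 (P3 d c) 0 0 z -
      S8 (P3 d c) 0 0 0 = 0 := by
    intro x y z
    refine Eq.trans ?_ (IE8 x y z)
    simp only [S8, P3, neg_zero, ← sum_add_distrib, ← sum_sub_distrib, smul_eq_mul]
    exact sum_congr rfl fun p _ => by ring
  have hsc := P3_scale d c
  have hQ : ∀ (t : Fin 4 → ℚ) (x y z : R4), aeval t (Q3 d c x y z) =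
      P3 d c (aeval t x) (aeval t y) (aeval t z) := fun t => map_Q3 (aeval t) d c
  have hP : ∀ (t : ℚ), Polynomial.eval t (Q3 d c (Polynomial.X + 1) 1 Polynomial.X) =
      P3 d c (t + 1) 1 t := fun t => by
    have := map_Q3 (Polynomial.aeval t) d c (Polynomial.X + 1) 1 Polynomial.X
    simpa [Polynomial.coe_aeval_eq_eval] using this
  refine P3_coef ?_ hijk
  subst hκ
  clear IE8 S2
  generalize P3 d c = ρ at *
  have cg : ∀ {x y z x' y' z'}, x = x' → y = y' → z = z' → ρ x y z = ρ x' y' z' := by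
    rintro _ _ _ _ _ _ rfl rfl rfl; rfl
  have rev : ∀ x y z, ρ x y z = ρ z y x := fun x y z => by
    linear_combination A x y z - A z y x
  have rot : ∀ x y z a b, a = z - y → b = z - x → ρ x y z = ρ a b z := by
    intro x y z a b ha hb
    have h1 := B0 x y z (y - x) b rfl hb
    have h2 := B0 a b z (y - x) y (by rw [ha, hb]; ring) (by rw [ha]; ring)
    linarith
  let f : ℚ → ℚ → ℚ → ℚ := fun a b c => ρ (b + c) (a + c) (a + b)
  have fs : ∀ a b c, f a b c = f c b a := fun a b c =>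
    (rev _ _ _).trans (cg (by ring) (by ring) (by ring))
  have f3 : ∀ a b c, f a b (-c) = f a b c := fun a b c => rot _ _ _ _ _ (by ring) (by ring)
  have f1 : ∀ a b c, f (-a) b c = f a b c := fun a b c => by rw [fs, f3, fs]
  have R0 : ∀ a b c, f a b c + f b a c + f b c a = 0 := fun a b c => by
    have h1 : f b a c = ρ (a + c) (b + c) (a + b) := cg (by ring) (by ring) (by ring)
    have h2 : f b c a = ρ (a + c) (a + b) (b + c) := cg (by ring) (by ring) (by ring)
    rw [h1, h2]; exact A _ _ _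
  have f2 : ∀ a b c, f a (-b) c = f a b c := fun a b c => by
    have h1 := R0 a (-b) c
    rw [f1, f1] at h1
    linear_combination h1 - R0 a b c
  have N1 : ∀ {a b c a' b' c' : ℚ}, a ^ 2 = a' ^ 2 → b ^ 2 = b' ^ 2 → c ^ 2 = c' ^ 2 →
      f a b c = f a' b' c' := by
    intro a b c a' b' c' h1 h2 h3
    rw [even_of_neg (g := fun a => f a b c) (fun a => f1 a b c) h1,
      even_of_neg (g := fun b => f a' b c) (fun b => f2 a' b c) h2,
      even_of_neg (g := fun c => f a' b' c) (fun c => f3 a' b' c) h3]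
  have N2 : ∀ {a b c a' b' c' : ℚ}, a ^ 2 = c' ^ 2 → b ^ 2 = b' ^ 2 → c ^ 2 = a' ^ 2 →
      f a b c = f a' b' c' := by
    intro a b c a' b' c' h1 h2 h3
    rw [fs a']; exact N1 h1 h2 h3
  have R1 : ∀ a b c, f a b c + f b c a + f c a b = 0 := fun a b c => by
    rw [fs c a b]; linear_combination R0 a b c
  have ρf : ∀ x y z, ρ x y z = f ((y + z - x) / 2) ((x + z - y) / 2) ((x + y - z) / 2) :=
    fun x y z => cg (by ring) (by ring) (by ring)
  have R2 : ∀ a b c, f (a + c) b (a - c) + f (b + a) c (b - a) + f (c + b) a (c - b) = 0 := by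
    intro a b c
    have h := B0 (a + b - c) (2 * a) (a + b + c) (a + c - b) (2 * c) (by ring) (by ring)
    rw [ρf, ρf (a + c - b), ρf (a + c - b) (2 * c), zero_mul] at h
    exact add3 (N1 (by ring) (by ring) (by ring)) (N1 (by ring) (by ring) (by ring))
      (N1 (by ring) (by ring) (by ring)) h
  have ng : ∀ x y z x' y' z', x' = -x → y' = -y → z' = -z → ρ x' y' z' = ρ x y z := by
    rintro x y z _ _ _ rfl rfl rfl
    rw [ρf, ρf x]; exact N1 (by ring) (by ring) (by ring)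
  have Eρ : ∀ x y z, E f x y z = ρ (2 * x) (2 * y) (2 * z) + ρ (-(2 * x)) (2 * y) (2 * z) +
      ρ (2 * x) (-(2 * y)) (2 * z) + ρ (2 * x) (2 * y) (-(2 * z)) := fun x y z =>
    add4 (cg (by ring) (by ring) (by ring)) (cg (by ring) (by ring) (by ring))
      (cg (by ring) (by ring) (by ring)) (cg (by ring) (by ring) (by ring))
  have ES : ∀ x y z, S8 ρ (2 * x) (2 * y) (2 * z) = 2 * E f x y z := by
    intro x y z
    rw [Eρ]
    simp only [S8]
    rw [ng (2 * x) (2 * y) (2 * z) (-(2 * x)) (-(2 * y)) (-(2 * z)) rfl rfl rfl,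
      ng (-(2 * x)) (2 * y) (2 * z) (2 * x) (-(2 * y)) (-(2 * z)) (by ring) rfl rfl,
      ng (2 * x) (-(2 * y)) (2 * z) (-(2 * x)) (2 * y) (-(2 * z)) rfl (by ring) rfl,
      ng (2 * x) (2 * y) (-(2 * z)) (-(2 * x)) (-(2 * y)) (2 * z) rfl rfl (by ring)]
    ring
  have IE : ∀ x y z, E f x y z - E f 0 y z - E f x 0 z - E f x y 0 + E f x 0 0 + E f 0 y 0 +
      E f 0 0 z - E f 0 0 0 = 0 := by
    intro x y z
    have h := IE9 (2 * x) (2 * y) (2 * z)
    have z0 : (0 : ℚ) = 2 * 0 := by ring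
    rw [ES, z0, ES, ES, ES, ES, ES, ES, ES] at h
    linarith
  have ed := edge f N1 N2 R1 R2 IE
  have Es : ∀ x y, E f x y 0 = E f 0 y x := fun x y => by
    rw [Eρ, Eρ, rev (2 * x), rev (-(2 * x)), rev (2 * x) (-(2 * y)), rev (2 * x) (2 * y) (-(2 * 0))]
    ring
  have E0 : ∀ x y z, E f x y z = 0 := fun x y z => by
    have h := IE x y z
    rw [(ed y z).1, (ed x z).2.1, Es, (ed y x).1, (ed x 0).2.1, (ed y 0).1, (ed 0 z).1,
      (ed 0 0).1] at h
    linarith
  have f0 : ∀ a c, f a 0 c = 0 := fun a c => by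
    refine Eq.trans ?_ (ed (a / 2) (c / 2)).2.2
    exact N1 (by ring) rfl (by ring)
  let F : R4 → R4 → R4 → R4 := fun a b e => Q3 d c (b + e) (a + e) (a + b)
  have hF : ∀ (t : Fin 4 → ℚ) (a b e : Fin 4), aeval t (F (X a) (X b) (X e)) = f (t a) (t b) (t e) := by
    intro t a b e
    simp only [F, hQ, map_add, aeval_X, f]
  have hS : ∀ (n a b e : Fin 4), a ≠ n → b ≠ n → e ≠ n →
      F (X a) (X b) (X e) ∈ supported ℚ {j | j ≠ n} := by
    intro n a b e ha hb he
    have m : ∀ a : Fin 4, a ≠ n → (X a : R4) ∈ supported ℚ {j | j ≠ n} :=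
      fun a ha => X_mem_supported.2 ha
    exact Q3_mem _ _ _ (add_mem (m b hb) (m e he)) (add_mem (m a ha) (m e he))
      (add_mem (m a ha) (m b hb))
  have G0 := vanish (F (X 1) (X 2) (X 3)) (F (X 0) (X 3) (X 2)) (F (X 3) (X 0) (X 1))
    (F (X 2) (X 1) (X 0)) (hS _ _ _ _ (by decide) (by decide) (by decide))
    (hS _ _ _ _ (by decide) (by decide) (by decide)) (hS _ _ _ _ (by decide) (by decide) (by decide))
    (hS _ _ _ _ (by decide) (by decide) (by decide)) (by
      have key : ∀ t0 t1 t2 t3 a b e : ℚ, t0 ^ 2 = (a + b + e) ^ 2 → t1 ^ 2 = a ^ 2 → t2 ^ 2 = b ^ 2 →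
          t3 ^ 2 = e ^ 2 → f t1 t2 t3 + f t0 t3 t2 + f t3 t0 t1 + f t2 t1 t0 = 0 := by
        intro t0 t1 t2 t3 a b e h0 h1 h2 h3
        rw [← E0 ((b + e) / 2) ((a + e) / 2) ((a + b) / 2)]
        unfold E
        exact add4 (N1 (h1.trans (by ring)) (h2.trans (by ring)) (h3.trans (by ring)))
          (N1 (h0.trans (by ring)) (h3.trans (by ring)) (h2.trans (by ring)))
          (N1 (h3.trans (by ring)) (h0.trans (by ring)) (h1.trans (by ring)))
          (N1 (h2.trans (by ring)) (h1.trans (by ring)) (h0.trans (by ring)))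
      intro t ht
      simp only [map_add, hF]
      rcases ht with h | h | h | h
      · exact key _ _ _ _ (t 1) (t 2) (t 3) (by rw [h]; ring) rfl rfl rfl
      · exact key _ _ _ _ (-t 1) (t 2) (t 3) (by rw [h]) (by ring) rfl rfl
      · exact key _ _ _ _ (t 1) (-t 2) (t 3) (by rw [h]; ring) rfl (by ring) rfl
      · exact key _ _ _ _ (t 1) (t 2) (-t 3) (by rw [h]; ring) rfl rfl (by ring))
  have G1 : ∀ a b e, f a b e = - f 0 e b - f 0 a b := fun a b e => by
    have h := congrArg (aeval ![0, a, b, e]) G0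
    simp only [map_add, hF, map_zero] at h
    have h' : f a b e + f 0 e b + f e 0 a + f b a 0 = 0 := h
    rw [f0, fs b a 0] at h'
    linarith
  have anti : ∀ a b, f 0 a b = - f 0 b a := fun a b => by
    have h := R1 0 a b
    rw [f0, fs a b 0] at h
    linarith
  have g2 : ∀ x y, f 0 (2 * y) x = 2 * f 0 y (x + y) + 2 * f 0 y (x - y) := fun x y => by
    have h := R2 y y x
    rw [G1 (y + x), G1 (y + y), G1 (x + y), anti (y - x), anti (y + x), anti (x - y), anti (x + y),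
      show f 0 y (y - x) = f 0 y (x - y) from N1 rfl rfl (by ring),
      show f 0 y (y + x) = f 0 y (x + y) from N1 rfl rfl (by ring),
      show f 0 (y - y) x = f 0 0 x from N1 rfl (by ring) rfl, f0,
      show f 0 (y + y) x = f 0 (2 * y) x from N1 rfl (by ring) rfl] at h
    linarith
  have fsc : ∀ s x, f 0 (s * x) s = s ^ d * ρ (x + 1) 1 x := fun s x => by
    rw [← hsc]; exact cg (by ring) (by ring) (by ring)
  have hp : Q3 d c (Polynomial.X + 1) 1 Polynomial.X = (0 : Polynomial ℚ) := by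
    have e1 : ∀ x, ρ (x + 1) 1 x = - f 0 1 x := fun x => by
      rw [← anti]; exact cg (by ring) (by ring) (by ring)
    refine poly_zero _ (A := 2 ^ d) (by positivity) ?_ fun n => ?_
    · rw [hP, e1]; linarith [anti 1 1]
    · rw [hP, hP, hP, ← fsc, anti, e1, e1]
      have := g2 (2 * n) 1
      rw [mul_one] at this
      linarith
  have g0 : ∀ a b, f 0 a b = 0 := fun a b => by
    by_cases hb : b = 0
    · rw [anti, hb, f0, neg_zero]
    · have := fsc b (a / b)
      rw [← hP, hp, Polynomial.eval_zero, mul_zero, mul_div_cancel₀ _ hb] at this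
      exact this
  intro x y z
  rw [ρf, G1, g0, g0]; simp

end Pool.Agent.Lib.MP_56ed1a_nt
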