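import Mathlib

/-! Homogeneous generating polynomials in two and three variables. -/

namespace Pool.Agent.Lib.MP_56ed1a_nt

open Finset

/-- Triples with sum `d`. -/
def T3 (d : ℕ) : Finset (ℕ × ℕ × ℕ) :=
  (range (d + 1) ×ˢ range (d + 1) ×ˢ range (d + 1)).filter fun p => p.1 + p.2.1 + p.2.2 = d

lemma mem_T3 {d : ℕ} {p : ℕ × ℕ × ℕ} : p ∈ T3 d ↔ p.1 + p.2.1 + p.2.2 = d := by
  simp only [T3, mem_filter, mem_product, mem_range]; omega

lemma mem_ad {d : ℕ} {p : ℕ × ℕ} : p ∈ antidiagonal d ↔ p.1 + p.2 = d :=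
  HasAntidiagonal.mem_antidiagonal

variable {V : Type*} [AddCommGroup V]

lemma sum_T3 (d : ℕ) (F : ℕ → ℕ → ℕ → V) :
    ∑ p ∈ T3 d, F p.1 p.2.1 p.2.2 =
      ∑ q ∈ antidiagonal d, ∑ r ∈ antidiagonal q.2, F q.1 r.1 r.2 := by
  rw [sum_sigma']
  refine sum_nbij' (fun p => ⟨(p.1, p.2.1 + p.2.2), (p.2.1, p.2.2)⟩) (fun q => (q.1.1, q.2.1, q.2.2))
    ?_ ?_ ?_ ?_ ?_
  · intro p hp; simp only [mem_T3, mem_sigma, mem_ad, and_true] at *; omega
  · intro p hp; simp only [mem_T3, mem_sigma, mem_ad] at *; omega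
  · intro p _; rfl
  · rintro ⟨⟨a, b⟩, c, e⟩ hp
    simp only [mem_sigma, mem_ad] at hp
    obtain ⟨-, rfl⟩ := hp; rfl
  · intro p _; rfl

lemma sum_T3_swap (d : ℕ) (F : ℕ → ℕ → ℕ → V) :
    ∑ p ∈ T3 d, F p.1 p.2.1 p.2.2 = ∑ p ∈ T3 d, F p.2.1 p.1 p.2.2 := by
  refine sum_nbij' (fun p => (p.2.1, p.1, p.2.2)) (fun p => (p.2.1, p.1, p.2.2)) ?_ ?_ ?_ ?_ ?_
  · intro p hp; simp only [mem_T3] at *; omega
  · intro p hp; simp only [mem_T3] at *; omega
  all_goals intro p _; rfl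

lemma sum_T3_rot (d : ℕ) (F : ℕ → ℕ → ℕ → V) :
    ∑ p ∈ T3 d, F p.1 p.2.1 p.2.2 = ∑ p ∈ T3 d, F p.2.1 p.2.2 p.1 := by
  refine sum_nbij' (fun p => (p.2.2, p.1, p.2.1)) (fun p => (p.2.1, p.2.2, p.1)) ?_ ?_ ?_ ?_ ?_
  · intro p hp; simp only [mem_T3] at *; omega
  · intro p hp; simp only [mem_T3] at *; omega
  all_goals intro p _; rfl

variable [Module ℚ V]

/-- `∑ x ^ j y ^ k c j k` over `j + k = e`. -/
def P2 (e : ℕ) (c : ℕ → ℕ → V) (x y : ℚ) : V :=
  ∑ p ∈ antidiagonal e, (x ^ p.1 * y ^ p.2) • c p.1 p.2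

/-- `∑ x ^ i y ^ j z ^ k c i j k` over `i + j + k = d`. -/
def P3 (d : ℕ) (c : ℕ → ℕ → ℕ → V) (x y z : ℚ) : V :=
  ∑ p ∈ T3 d, (x ^ p.1 * y ^ p.2.1 * z ^ p.2.2) • c p.1 p.2.1 p.2.2

lemma map_P2 {W : Type*} [AddCommGroup W] [Module ℚ W] (l : V →ₗ[ℚ] W) (e : ℕ) (c : ℕ → ℕ → V)
    (x y : ℚ) : l (P2 e c x y) = P2 e (fun j k => l (c j k)) x y := by
  simp [P2]

lemma map_P3 {W : Type*} [AddCommGroup W] [Module ℚ W] (l : V →ₗ[ℚ] W) (d : ℕ) (c : ℕ → ℕ → ℕ → V)
    (x y z : ℚ) : l (P3 d c x y z) = P3 d (fun i j k => l (c i j k)) x y z := by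
  simp [P3]

lemma P2_eq_zero {e : ℕ} {c : ℕ → ℕ → V} (h : ∀ j k, j + k = e → c j k = 0) (x y : ℚ) :
    P2 e c x y = 0 :=
  sum_eq_zero fun p hp => by rw [h _ _ (mem_ad.1 hp), smul_zero]

lemma P3_eq_zero {d : ℕ} {c : ℕ → ℕ → ℕ → V} (h : ∀ i j k, i + j + k = d → c i j k = 0)
    (x y z : ℚ) : P3 d c x y z = 0 :=
  sum_eq_zero fun p hp => by rw [h _ _ _ (mem_T3.1 hp), smul_zero]

lemma P3_scale (d : ℕ) (c : ℕ → ℕ → ℕ → ℚ) (s x y z : ℚ) :
    P3 d c (s * x) (s * y) (s * z) = s ^ d * P3 d c x y z := by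
  rw [P3, P3, mul_sum]
  refine sum_congr rfl fun p hp => ?_
  rw [← mem_T3.1 hp]
  simp only [smul_eq_mul, mul_pow, pow_add]; ring

lemma coef_zero {n : ℕ} {a : ℕ → ℚ} (h : ∀ x : ℚ, ∑ i ∈ range n, x ^ i * a i = 0) {i : ℕ}
    (hi : i < n) : a i = 0 := by
  have h1 : ∑ i ∈ range n, Polynomial.monomial i (a i) = 0 := by
    apply Polynomial.funext
    intro x
    rw [Polynomial.eval_finsetSum, Polynomial.eval_zero, ← h x]
    exact sum_congr rfl fun i _ => by rw [Polynomial.eval_monomial, mul_comm]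
  have h2 := congrArg (Polynomial.coeff · i) h1
  simpa [Polynomial.coeff_monomial, hi] using h2

lemma P3_coef {d : ℕ} {c : ℕ → ℕ → ℕ → ℚ} (h : ∀ x y z, P3 d c x y z = 0) {i j k : ℕ}
    (hd : i + j + k = d) : c i j k = 0 := by
  have h1 : ∀ x y z : ℚ, ∑ i ∈ range (d + 1), x ^ i * ∑ j ∈ range (d + 1), y ^ j *
      ∑ k ∈ range (d + 1), z ^ k * (if i + j + k = d then c i j k else 0) = 0 := by
    intro x y z
    refine Eq.trans ?_ (h x y z)
    rw [P3, T3, sum_filter, sum_product]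
    refine sum_congr rfl fun i _ => ?_
    rw [sum_product, mul_sum]
    refine sum_congr rfl fun j _ => ?_
    rw [mul_sum, mul_sum]
    refine sum_congr rfl fun k _ => ?_
    split_ifs <;> simp [mul_assoc]
  have h2 := coef_zero (n := d + 1) (i := k) (fun z => coef_zero (n := d + 1) (i := j) (fun y =>
    coef_zero (n := d + 1) (i := i) (fun x => h1 x y z) (by omega)) (by omega)) (by omega)
  rwa [if_pos hd] at h2

lemma sign_factor (i : ℕ) (x : ℚ) (h : ¬(Even i ∧ 2 ≤ i)) :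
    (x ^ i - 0 ^ i) + ((-x) ^ i - 0 ^ i) = 0 := by
  rcases Nat.even_or_odd i with he | ho
  · have : i = 0 := by
      by_contra h0
      obtain ⟨m, rfl⟩ := he
      exact h ⟨⟨m, rfl⟩, by omega⟩
    simp [this]
  · rw [ho.neg_pow, zero_pow ho.pos.ne']; ring

/-- The depth two step. -/
theorem depth2 {e : ℕ} {c : ℕ → ℕ → ℚ} (S1 : ∀ j k, j + k = e → c j k + c k j = 0)
    (S2 : ∀ u v, P2 e c u (u + v) + P2 e c v (u + v) = 0)
    (h0 : ∀ j k, j + k = e → Even j ∧ 2 ≤ j → Even k ∧ 2 ≤ k → c j k = 0) {j k : ℕ}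
    (hjk : j + k = e) : c j k = 0 := by
  have A : ∀ x y, P2 e c x y = - P2 e c y x := by
    intro x y
    rw [eq_neg_iff_add_eq_zero, P2, P2, ← Nat.sum_antidiagonal_swap (n := e)
      (f := fun p => (y ^ p.1 * x ^ p.2) • c p.1 p.2), ← sum_add_distrib]
    refine sum_eq_zero fun p hp => ?_
    simp only [Prod.fst_swap, Prod.snd_swap, smul_eq_mul]
    linear_combination x ^ p.1 * y ^ p.2 * S1 _ _ (mem_ad.1 hp)
  have B : ∀ x y x', x' = y - x → P2 e c x y = - P2 e c x' y := by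
    rintro x y _ rfl
    have := S2 x (y - x)
    rw [add_sub_cancel] at this
    linarith
  have Z : ∀ y, P2 e c 0 y = 0 := fun y => by
    have h1 := A y y
    have h2 := B 0 y y (by ring)
    linarith
  have Z' : ∀ y, P2 e c y 0 = 0 := fun y => by rw [A, Z, neg_zero]
  have Ng : ∀ x y, P2 e c x y = P2 e c (-x) (-y) := fun x y => by
    have h1 := B x y (y - x) rfl
    have h2 := A (y - x) y
    have h3 := B y (y - x) (-x) (by ring)
    have h4 := A (-x) (y - x)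
    have h5 := B (y - x) (-x) (-y) (by ring)
    have h6 := A (-y) (-x)
    linarith
  have IE : ∀ x y, P2 e c x y + P2 e c (-x) y + P2 e c x (-y) + P2 e c (-x) (-y) -
      2 * P2 e c 0 y - 2 * P2 e c 0 (-y) - 2 * P2 e c x 0 - 2 * P2 e c (-x) 0 +
      4 * P2 e c 0 0 = 0 := by
    intro x y
    simp only [P2, mul_sum, ← sum_add_distrib, ← sum_sub_distrib, smul_eq_mul]
    refine sum_eq_zero fun p hp => ?_
    have key : ((x ^ p.1 - 0 ^ p.1) + ((-x) ^ p.1 - 0 ^ p.1)) *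
        ((y ^ p.2 - 0 ^ p.2) + ((-y) ^ p.2 - 0 ^ p.2)) * c p.1 p.2 = 0 := by
      by_cases h1 : Even p.1 ∧ 2 ≤ p.1
      · by_cases h2 : Even p.2 ∧ 2 ≤ p.2
        · rw [h0 _ _ (mem_ad.1 hp) h1 h2, mul_zero]
        · rw [sign_factor _ y h2]; ring
      · rw [sign_factor _ x h1]; ring
    linear_combination key
  have O : ∀ x y, P2 e c (-x) y = - P2 e c x y := fun x y => by
    have h1 := IE x y
    have h2 := Ng x y
    have h3 := Ng x (-y)
    rw [neg_neg] at h3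
    rw [Z, Z, Z', Z', Z] at h1
    linarith
  have per : ∀ n : ℕ, P2 e c n 1 = 0 := by
    intro n
    induction n with
    | zero => simpa using Z 1
    | succ n ih =>
      have h1 := B ((n : ℚ) + 1) 1 (-n) (by ring)
      push_cast
      rw [h1, O, ih]; simp
  have h1 : ∑ p ∈ antidiagonal e, Polynomial.monomial p.1 (c p.1 p.2) = 0 := by
    apply Polynomial.eq_zero_of_infinite_isRoot
    refine Set.infinite_of_injective_forall_mem (f := fun n : ℕ => (n : ℚ)) Nat.cast_injective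
      fun n => ?_
    simp only [Set.mem_ofPred_eq, Polynomial.IsRoot.def]
    rw [Polynomial.eval_finsetSum, ← per n, P2]
    exact sum_congr rfl fun p _ => by simp [mul_comm]
  have h2 := congrArg (Polynomial.coeff · j) h1
  simp only [Polynomial.finsetSum_coeff, Polynomial.coeff_monomial, Polynomial.coeff_zero] at h2
  rw [sum_eq_single (j, k)] at h2
  · simpa using h2
  · rintro ⟨a, b⟩ hp hne
    rw [if_neg]
    rintro rfl
    have := mem_ad.1 hp
    exact hne (by simp only [Prod.mk.injEq, true_and]; omega)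
  · intro h; exact absurd (mem_ad.2 hjk) h

lemma poly_zero_aux (p : Polynomial ℚ) {A : ℚ} (hA : 0 ≤ A) (h1 : p.eval 1 = 0)
    (h : ∀ n : ℕ, A * p.eval (n : ℚ) = 2 * p.eval (2 * n + 1 : ℚ) + 2 * p.eval (2 * n - 1 : ℚ))
    (hl : 0 ≤ p.leadingCoeff) : p = 0 := by
  by_cases hd : 0 < p.degree
  · exfalso
    have t := (p.tendsto_atTop_of_leadingCoeff_nonneg hd hl).comp tendsto_natCast_atTop_atTop
    obtain ⟨M, hM⟩ := Filter.eventually_atTop.1 (t.eventually_gt_atTop 0)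
    classical
    let n := Nat.findGreatest (fun n : ℕ => p.eval (n : ℚ) ≤ 0) (M + 1)
    have n1 : 1 ≤ n := Nat.le_findGreatest (by omega) (by simp [h1])
    have n2 : p.eval (n : ℚ) ≤ 0 :=
      Nat.findGreatest_spec (P := fun n : ℕ => p.eval (n : ℚ) ≤ 0) (m := 1) (by omega) (by simp [h1])
    have n3 : ∀ m : ℕ, n < m → 0 < p.eval (m : ℚ) := by
      intro m hm
      by_cases h' : m ≤ M + 1
      · exact not_le.1 (Nat.findGreatest_is_greatest hm h')
      · exact hM m (by omega)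
    have a1 := n3 (2 * n + 1) (by omega)
    have a2 : 0 ≤ p.eval (2 * n - 1 : ℚ) := by
      rcases n1.eq_or_lt with e | e
      · rw [← e]; norm_num [h1]
      · have := n3 (2 * n - 1) (by omega)
        rw [Nat.cast_sub (by omega)] at this
        push_cast at this
        exact this.le
    have a3 := h n
    push_cast at a1
    nlinarith [mul_nonneg hA (neg_nonneg.2 n2)]
  · rw [Polynomial.eq_C_of_degree_le_zero (not_lt.1 hd)] at h1 ⊢
    rw [Polynomial.eval_C] at h1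
    rw [h1, map_zero]

lemma poly_zero (p : Polynomial ℚ) {A : ℚ} (hA : 0 ≤ A) (h1 : p.eval 1 = 0)
    (h : ∀ n : ℕ, A * p.eval (n : ℚ) = 2 * p.eval (2 * n + 1 : ℚ) + 2 * p.eval (2 * n - 1 : ℚ)) :
    p = 0 := by
  rcases le_total 0 p.leadingCoeff with hl | hl
  · exact poly_zero_aux p hA h1 h hl
  · have := poly_zero_aux (-p) hA (by simp [h1]) (fun n => by
      simp only [Polynomial.eval_neg]; linear_combination - h n) (by simpa using hl)
    exact neg_eq_zero.1 this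

end Pool.Agent.Lib.MP_56ed1a_nt
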