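import Pool.Agent.Lib.MP_56ed1a_nt.Trunc
import Pool.Agent.Lib.MP_56ed1a_nt.Defs

/-! The regularised values of convergent indices are the multiple zeta values. -/

namespace Pool.Agent.Lib.MP_56ed1a_nt

open Finset Filter Topology

open Classical in
/-- Increasing positive tuples with entries below `M`. -/
noncomputable def box (r M : ℕ) : Finset (Fin r → ℕ) :=
  (Fintype.piFinset fun _ => range M).filter fun k => StrictMono k ∧ ∀ i, 0 < k i

lemma mem_box {r M : ℕ} {k : Fin r → ℕ} :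
    k ∈ box r M ↔ (∀ i, k i < M) ∧ StrictMono k ∧ ∀ i, 0 < k i := by
  simp [box]

/-- The truncated multiple zeta value. -/
noncomputable def trunc {r : ℕ} (n : Fin r → ℕ) (M : ℕ) : ℝ :=
  ∑ k ∈ box r M, ∏ i, ((k i : ℝ) ^ n i)⁻¹

lemma mzv_eq {r : ℕ} (n : Fin r → ℕ) {L : ℝ} (h : Tendsto (trunc n) atTop (𝓝 L)) : mzv n = L := by
  classical
  let B : ℕ → Finset {k : Fin r → ℕ // StrictMono k ∧ ∀ i, 0 < k i} := fun M =>
    (Fintype.piFinset fun _ => range M).subtype _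
  let f : {k : Fin r → ℕ // StrictMono k ∧ ∀ i, 0 < k i} → ℝ := fun k => ∏ i, ((k.1 i : ℝ) ^ n i)⁻¹
  have f0 : ∀ k, 0 ≤ f k := fun k => prod_nonneg fun i _ => by positivity
  have hB : ∀ M, ∑ k ∈ B M, f k = trunc n M := fun M => by
    rw [trunc, box]
    convert sum_subtype_eq_sum_filter (fun k : Fin r → ℕ => ∏ i, ((k i : ℝ) ^ n i)⁻¹)
  have mono : Monotone B := fun a b hab k hk => by
    simp only [B, mem_subtype, Fintype.mem_piFinset, mem_range] at hk ⊢
    exact fun i => (hk i).trans_le hab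
  have ex : ∀ k, ∃ M, k ∈ B M := fun k => ⟨∑ i, k.1 i + 1, by
    simp only [B, mem_subtype, Fintype.mem_piFinset, mem_range]
    exact fun i => Nat.lt_succ_of_le (single_le_sum (fun _ _ => Nat.zero_le _) (mem_univ i))⟩
  have t := tendsto_atTop_finset_of_monotone mono ex
  have m2 : Monotone (trunc n) := fun a b hab => by
    rw [← hB, ← hB]
    exact sum_le_sum_of_subset_of_nonneg (mono hab) fun k _ _ => f0 k
  have hs : Summable f := summable_of_sum_le f0 (c := L) fun u => by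
    obtain ⟨M, hM⟩ := (t.eventually_ge_atTop u).exists
    refine (sum_le_sum_of_subset_of_nonneg hM fun k _ _ => f0 k).trans ?_
    rw [hB]
    exact m2.ge_of_tendsto h M
  have t2 : Tendsto (fun M => ∑ k ∈ B M, f k) atTop (𝓝 (mzv n)) := hs.hasSum.comp t
  simp only [hB] at t2
  exact tendsto_nhds_unique t2 h

lemma trunc_zero (n : Fin 0 → ℕ) (M : ℕ) : trunc n M = 1 := by
  have : box 0 M = {default} := by
    ext k
    simp only [mem_box, mem_singleton, IsEmpty.forall_iff, true_and, and_true]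
    exact ⟨fun _ => Subsingleton.elim _ _, fun _ a => a.elim0⟩
  simp [trunc, this]

lemma trunc_succ {r : ℕ} (n : Fin (r + 1) → ℕ) {j : ℕ} (hj : n (Fin.last r) = j + 1) :
    trunc n = psum (trunc (Fin.init n) * w j) := by
  funext M
  have e : psum (trunc (Fin.init n) * w j) M = ∑ m ∈ Ioo 0 M, trunc (Fin.init n) m * w j m := by
    refine (sum_subset (fun m hm => mem_range.2 (mem_Ioo.1 hm).2) fun m h1 h2 => ?_).symm
    have : m = 0 := by simp only [mem_range, mem_Ioo] at h1 h2; omega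
    simp [this]
  rw [e]
  simp only [trunc, sum_mul]
  rw [sum_sigma']
  refine sum_nbij' (fun k => ⟨k (Fin.last r), Fin.init k⟩) (fun q => Fin.snoc q.2 q.1) ?_ ?_ ?_ ?_ ?_
  · intro k hk
    obtain ⟨h1, h2, h3⟩ := mem_box.1 hk
    exact mem_sigma.2 ⟨mem_Ioo.2 ⟨h3 _, h1 _⟩, mem_box.2 ⟨fun i => h2 (Fin.castSucc_lt_last i),
      fun a b hab => h2 (Fin.castSucc_lt_castSucc_iff.2 hab), fun i => h3 _⟩⟩
  · rintro ⟨m, k⟩ hq
    obtain ⟨hm, hk⟩ := mem_sigma.1 hq
    obtain ⟨h1, h2, h3⟩ := mem_box.1 hk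
    obtain ⟨h4, h5⟩ := mem_Ioo.1 hm
    refine mem_box.2 ⟨fun i => ?_, fun a b hab => ?_, fun i => ?_⟩
    · induction i using Fin.lastCases with
      | last => simpa using h5
      | cast i => simpa using (h1 i).trans h5
    · induction a using Fin.lastCases with
      | last => exact absurd hab (not_lt.2 (Fin.le_last b))
      | cast a =>
        induction b using Fin.lastCases with
        | last => simpa using h1 a
        | cast b => simpa using h2 (Fin.castSucc_lt_castSucc_iff.1 hab)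
    · induction i using Fin.lastCases with
      | last => simpa using h4
      | cast i => simpa using h3 i
  · intro k _; simp
  · rintro ⟨m, k⟩ _; simp
  · intro k _
    rw [Fin.prod_univ_castSucc, hj]; rfl

lemma trunc1 (n : Fin 1 → ℕ) {i : ℕ} (h : n 0 = i + 1) : trunc n = z1 i := by
  rw [trunc_succ n h, z1]
  congr 1
  funext k
  simp [trunc_zero]

lemma trunc2 (n : Fin 2 → ℕ) {i j : ℕ} (h : n 0 = i + 1) (h' : n 1 = j + 1) : trunc n = z2 i j := by
  rw [trunc_succ n h', trunc1 _ h, z2]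

lemma trunc3 (n : Fin 3 → ℕ) {i j k : ℕ} (h : n 0 = i + 1) (h' : n 1 = j + 1) (h'' : n 2 = k + 1) :
    trunc n = z3 i j k := by
  rw [trunc_succ n h'', trunc2 _ h h', z3]

lemma mzv1 {i : ℕ} (hi : 1 ≤ i) : mzv ![i + 1] = r1 i :=
  mzv_eq _ (by rw [trunc1 _ rfl]; exact (conv1 hi).2)

lemma mzv2 (i : ℕ) {j : ℕ} (hj : 1 ≤ j) : mzv ![i + 1, j + 1] = r2 i j :=
  mzv_eq _ (by rw [trunc2 _ rfl rfl]; exact (conv2 i hj).2)

lemma mzv3 (i j : ℕ) {k : ℕ} (hk : 1 ≤ k) : mzv ![i + 1, j + 1, k + 1] = r3 i j k :=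
  mzv_eq _ (by rw [trunc3 _ rfl rfl rfl]; exact conv3 i j hk)

lemma depthFil_mono {r s : ℕ} (h : r ≤ s) (N : ℕ) : depthFil r N ≤ depthFil s N :=
  Submodule.span_mono fun _ ⟨t, n, h1, h2⟩ => ⟨t, n, h1.trans h, h2⟩

lemma mzv_mem {r N : ℕ} {n : Fin r → ℕ} (h : Admissible n) (hN : ∑ i, n i = N) :
    mzv n ∈ depthFil r N := Submodule.subset_span ⟨r, n, le_rfl, h, hN, rfl⟩

lemma mem1 {i N : ℕ} (h : i + 1 = N) : r1 i ∈ depthFil 1 N := by
  rcases Nat.eq_zero_or_pos i with rfl | hi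
  · rw [r1_zero]; exact zero_mem _
  · rw [← mzv1 hi]
    refine mzv_mem ⟨fun a => ?_, fun a _ => ?_⟩ (by simpa using h) <;> fin_cases a <;> simp
    omega

lemma mem2' {i j N : ℕ} (hj : 1 ≤ j) (h : i + j + 2 = N) : r2 i j ∈ depthFil 2 N := by
  rw [← mzv2 i hj]
  refine mzv_mem ⟨fun a => ?_, fun a ha => ?_⟩ (by simp; omega) <;> fin_cases a <;> simp at *
  omega

lemma mem3' {i j k N : ℕ} (hk : 1 ≤ k) (h : i + j + k + 3 = N) : r3 i j k ∈ depthFil 3 N := by
  rw [← mzv3 i j hk]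
  refine mzv_mem ⟨fun a => ?_, fun a ha => ?_⟩ (by simp [Fin.sum_univ_three]; omega) <;>
    fin_cases a <;> simp at *
  omega

lemma r2_zero_zero : r2 0 0 = (-1 / 2 : ℚ) • r1 1 := by
  have := rst11 0 0
  rw [r1_zero] at this
  rw [Rat.smul_def]; push_cast; linarith

lemma r2_zero (i : ℕ) : r2 i 0 = - r2 0 i - r1 (i + 1) := by
  have := rst11 i 0
  rw [r1_zero] at this
  linarith

lemma mem2 {i j N : ℕ} (h : i + j + 2 = N) : r2 i j ∈ depthFil 2 N := by
  rcases Nat.eq_zero_or_pos j with rfl | hj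
  · rcases Nat.eq_zero_or_pos i with rfl | hi
    · rw [r2_zero_zero]
      exact Submodule.smul_mem _ _ (depthFil_mono (by omega) _ (mem1 (by omega)))
    · rw [r2_zero]
      exact sub_mem (neg_mem (mem2' hi (by omega))) (depthFil_mono (by omega) _ (mem1 (by omega)))
  · exact mem2' hj h

lemma mem11 {i j N : ℕ} (h : i + j + 2 = N) : r1 i * r1 j ∈ depthFil 2 N := by
  rw [rst11]
  exact add_mem (add_mem (mem2 h) (mem2 (by omega))) (depthFil_mono (by omega) _ (mem1 (by omega)))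

lemma mem12' {i j k N : ℕ} (hi : 1 ≤ i) (hk : 1 ≤ k) (h : i + j + k + 3 = N) :
    r1 i * r2 j k ∈ depthFil 3 N := by
  rw [rst12]
  exact add_mem (add_mem (add_mem (add_mem (mem3' hk h) (mem3' hk (by omega))) (mem3' hi (by omega)))
    (depthFil_mono (by omega) _ (mem2 (by omega)))) (depthFil_mono (by omega) _ (mem2 (by omega)))

lemma mem12 {i j k N : ℕ} (hi : 1 ≤ i) (h : i + j + k + 3 = N) :
    r1 i * r2 j k ∈ depthFil 3 N := by
  rcases Nat.eq_zero_or_pos k with rfl | hk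
  · rcases Nat.eq_zero_or_pos j with rfl | hj
    · rw [r2_zero_zero, mul_smul_comm]
      exact Submodule.smul_mem _ _ (depthFil_mono (by omega) _ (mem11 (by omega)))
    · rw [r2_zero, mul_sub, mul_neg]
      exact sub_mem (neg_mem (mem12' hi hj (by omega)))
        (depthFil_mono (by omega) _ (mem11 (by omega)))
  · exact mem12' hi hk h

lemma two_mul_mem {r n N : ℕ} {x : ℝ} (hx : x ∈ depthFil r n) (h : n + 2 = N) :
    r1 1 * x ∈ zetaTwoPart N := by
  induction hx using Submodule.span_induction with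
  | mem x hx =>
    obtain ⟨s, m, -, h1, h2, rfl⟩ := hx
    exact Submodule.subset_span ⟨s, m, h1, by omega, by rw [← mzv1 le_rfl]⟩
  | zero => rw [mul_zero]; exact zero_mem _
  | add x y _ _ hx hy => rw [mul_add]; exact add_mem hx hy
  | smul a x _ hx => rw [mul_smul_comm]; exact Submodule.smul_mem _ _ hx

lemma r1_even (k : ℕ) : ∃ q : ℚ, q ≠ 0 ∧ r1 (2 * k + 1) = q • Real.pi ^ (2 * (k + 1)) := by
  have h := hasSum_zeta_nat (k := k + 1) (by omega)
  have e : (fun n : ℕ => 1 / (n : ℝ) ^ (2 * (k + 1))) = w (2 * k + 1) := by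
    funext n; rw [w, one_div]; congr 2
  rw [e] at h
  have h1 := tendsto_nhds_unique (conv1 (i := 2 * k + 1) (by omega)).2 h.tendsto_sum_nat
  have h2 : 0 < r1 (2 * k + 1) := by
    rw [r1, h1, ← h.tsum_eq]
    exact h.summable.tsum_pos (w_nonneg _) 1 (by simp [w])
  refine ⟨(-1) ^ (k + 1 + 1) * 2 ^ (2 * (k + 1) - 1) * bernoulli (2 * (k + 1)) /
    (2 * (k + 1)).factorial, ?_, ?_⟩
  · intro h0
    have h3 : (((-1) ^ (k + 1 + 1) * 2 ^ (2 * (k + 1) - 1) * bernoulli (2 * (k + 1)) /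
      (2 * (k + 1)).factorial : ℚ) : ℝ) * Real.pi ^ (2 * (k + 1)) = r1 (2 * k + 1) := by
      rw [r1, h1]; push_cast; ring
    rw [h0] at h3
    simp at h3
    linarith
  · rw [r1, h1, Rat.smul_def]; push_cast; ring

lemma r1_step (k : ℕ) : ∃ q : ℚ, r1 (2 * k + 3) = q • (r1 1 * r1 (2 * k + 1)) := by
  obtain ⟨a, ha, h1⟩ := r1_even 0
  obtain ⟨b, hb, h2⟩ := r1_even k
  obtain ⟨c, -, h3⟩ := r1_even (k + 1)
  refine ⟨c / (a * b), ?_⟩
  have ha' : (a : ℝ) ≠ 0 := by exact_mod_cast ha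
  have hb' : (b : ℝ) ≠ 0 := by exact_mod_cast hb
  rw [show 2 * k + 3 = 2 * (k + 1) + 1 by ring, h3, h2, show r1 1 = r1 (2 * 0 + 1) from rfl, h1]
  simp only [Rat.smul_def]
  push_cast
  field_simp
  ring

lemma mem_two {i j k N : ℕ} (hi : Odd i) (h : i + j + k + 3 = N) :
    r1 i * r2 j k ∈ zetaTwoPart N := by
  obtain ⟨m, rfl⟩ := hi
  rcases m with _ | m
  · exact two_mul_mem (mem2 rfl) (by omega)
  · obtain ⟨q, hq⟩ := r1_step m
    rw [show 2 * (m + 1) + 1 = 2 * m + 3 by ring, hq, smul_mul_assoc, mul_assoc]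
    exact Submodule.smul_mem _ _ (two_mul_mem (mem12 (by omega) rfl) (by omega))

end Pool.Agent.Lib.MP_56ed1a_nt
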