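import Pool.Agent.Lib.MP_56ed1a_nt.Link
import Pool.Agent.Lib.MP_56ed1a_nt.Depth3

/-! Triple zeta values are generated by the totally odd ones, modulo lower depth and `ζ(2)`. -/

namespace Pool.Agent.Lib.MP_56ed1a_nt

open Finset

theorem functional_zero {d : ℕ} (hd : 1 ≤ d) (l : ℝ →ₗ[ℚ] ℚ)
    (h2 : ∀ x ∈ depthFil 2 (d + 3), l x = 0) (hz : ∀ x ∈ zetaTwoPart (d + 3), l x = 0)
    (h0 : ∀ i j k, i + j + k = d → Even i ∧ 2 ≤ i → Even j ∧ 2 ≤ j → Even k ∧ 2 ≤ k →
      l (r3 i j k) = 0) {i j k : ℕ} (hijk : i + j + k = d) : l (r3 i j k) = 0 := by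
  have s1 : ∀ i j k, i + j + k = d →
      l (r1 i * r2 j k) = l (r3 i j k) + l (r3 j i k) + l (r3 j k i) := by
    intro i j k h
    rw [rst12, map_add, map_add, map_add, map_add, h2 _ (mem2 (by omega)), h2 _ (mem2 (by omega))]
    ring
  have e1 : ∀ i j k, i + j + k = d → ¬(Even i ∧ 2 ≤ i) → l (r1 i * r2 j k) = 0 := by
    intro i j k h hi
    rcases Nat.even_or_odd i with he | ho
    · have : i = 0 := by
        by_contra h0
        obtain ⟨m, rfl⟩ := he
        exact hi ⟨⟨m, rfl⟩, by omega⟩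
      rw [this, r1_zero, zero_mul, map_zero]
    · exact hz _ (mem_two ho (by omega))
  have e2 : ∀ i j k, i + j + k = d → Even i ∧ 2 ≤ i → Even j ∧ 2 ≤ j → Even k ∧ 2 ≤ k →
      l (r1 i * r2 j k) = 0 := by
    intro i j k h hi hj hk
    rw [s1 i j k h, h0 i j k h hi hj hk, h0 j i k (by omega) hj hi hk, h0 j k i (by omega) hj hk hi]
    ring
  have s2 : ∀ i j k, i + j + k = d →
      l (r1 i * (r1 j * r1 k)) = l (r1 i * r2 j k) + l (r1 i * r2 k j) := by
    intro i j k h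
    rw [rst11 j k, mul_add, mul_add, map_add, map_add, h2 _ (mem11 (by omega)), add_zero]
  have τ1 : ∀ i j k, i + j + k = d → ¬(Even i ∧ 2 ≤ i) → l (r1 i * (r1 j * r1 k)) = 0 := by
    intro i j k h hi
    rw [s2 i j k h, e1 i j k h hi, e1 i k j (by omega) hi, add_zero]
  have τ : ∀ i j k, i + j + k = d → l (r1 i * (r1 j * r1 k)) = 0 := by
    intro i j k h
    by_cases hi : Even i ∧ 2 ≤ i
    · by_cases hj : Even j ∧ 2 ≤ j
      · by_cases hk : Even k ∧ 2 ≤ k
        · rw [s2 i j k h, e2 i j k h hi hj hk, e2 i k j (by omega) hi hk hj, add_zero]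
        · rw [show r1 i * (r1 j * r1 k) = r1 k * (r1 i * r1 j) by ring]
          exact τ1 k i j (by omega) hk
      · rw [mul_left_comm]; exact τ1 j i k (by omega) hj
    · exact τ1 i j k h hi
  have π0 : ∀ i j k, i + j + k = d → l (r1 i * r2 j k) = 0 := by
    intro i j k h
    by_cases hi : Even i ∧ 2 ≤ i
    swap
    · exact e1 i j k h hi
    rcases Nat.eq_zero_or_pos (j + k) with he | he
    · have := s2 i j k h
      obtain ⟨rfl, rfl⟩ : j = 0 ∧ k = 0 := by omega
      rw [τ i 0 0 h] at this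
      linarith
    refine depth2 (e := j + k) (c := fun j k => l (r1 i * r2 j k)) (fun a b hab => ?_) (fun u v => ?_)
      (fun a b hab ha hb => e2 i a b (by omega) hi ha hb) rfl
    · rw [← s2 i a b (by omega), τ i a b (by omega)]
    · have h3 := congrArg (l ∘ₗ LinearMap.mulLeft ℚ (r1 i)) (rsh11 he u v)
      rw [map_add, map_P2, map_P2, map_P2] at h3
      exact h3.trans (P2_eq_zero (fun a b hab => τ i a b (by omega)) _ _)
  obtain ⟨K, hK⟩ := rsh12 d
  refine depth3 (c := fun i j k => l (r3 i j k)) hd (fun i j k h => ?_) (l K) (fun u v t => ?_) h0 hijk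
  · rw [← s1 i j k h, π0 i j k h]
  · have h3 := congrArg l (hK u v (v + t))
    rw [map_add, map_add, map_add, map_P3, map_P3, map_P3, map_P3, P3_eq_zero π0, zero_add, map_smul,
      smul_eq_mul, ← add_assoc u, mul_comm] at h3
    exact h3

/-- The span of the totally odd values of depth three. -/
noncomputable def oddSpan (N : ℕ) : Submodule ℚ ℝ :=
  Submodule.span ℚ {x | ∃ n : Fin 3 → ℕ, (∀ i, Odd (n i) ∧ 3 ≤ n i) ∧ ∑ i, n i = N ∧ x = mzv n}

theorem depthFil_le (N : ℕ) : depthFil 3 N ≤ oddSpan N ⊔ depthFil 2 N ⊔ zetaTwoPart N := by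
  refine Submodule.span_le.2 ?_
  rintro x ⟨s, n, hs, ha, hN, rfl⟩
  rcases hs.lt_or_eq with h | rfl
  · exact Submodule.mem_sup_left (Submodule.mem_sup_right
      (Submodule.subset_span ⟨s, n, by omega, ha, hN, rfl⟩))
  by_contra hx
  obtain ⟨l, hl, hW⟩ := Submodule.exists_dual_map_eq_bot_of_notMem hx inferInstance
  have hW' : ∀ x ∈ oddSpan N ⊔ depthFil 2 N ⊔ zetaTwoPart N, l x = 0 := fun x hx => by
    have := Submodule.mem_map_of_mem (f := l) hx
    rwa [hW, Submodule.mem_bot] at this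
  have a0 := ha.1 0
  have a1 := ha.1 1
  have a2 := ha.2 2 rfl
  rw [Fin.sum_univ_three] at hN
  obtain ⟨d, rfl⟩ : ∃ d, N = d + 3 := ⟨N - 3, by omega⟩
  have e : n = ![n 0 - 1 + 1, n 1 - 1 + 1, n 2 - 1 + 1] := by
    funext i; fin_cases i <;> simp <;> omega
  rw [e, mzv3 _ _ (by omega)] at hl
  refine hl (functional_zero (d := d) (by omega) l
    (fun x hx => hW' x (Submodule.mem_sup_left (Submodule.mem_sup_right hx)))
    (fun x hx => hW' x (Submodule.mem_sup_right hx)) (fun i j k h hi hj hk => ?_) (by omega))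
  rw [← mzv3 i j (by omega)]
  refine hW' _ (Submodule.mem_sup_left (Submodule.mem_sup_left (Submodule.subset_span
    ⟨_, fun a => ?_, by simp [Fin.sum_univ_three]; omega, rfl⟩)))
  fin_cases a
  · exact ⟨hi.1.add_one, by simp; omega⟩
  · exact ⟨hj.1.add_one, by simp; omega⟩
  · exact ⟨hk.1.add_one, by simp; omega⟩

lemma odd_mem {N : ℕ} {n : Fin 3 → ℕ} (h : ∀ i, Odd (n i) ∧ 3 ≤ n i) (hN : ∑ i, n i = N) :
    mzv n ∈ depthFil 3 N :=
  mzv_mem ⟨fun i => by have := (h i).2; omega, fun i _ => by have := (h i).2; omega⟩ hN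

theorem oddPart_eq_top (N : ℕ) : oddPart N 3 = ⊤ := by
  have h1 : ∀ x ∈ oddSpan N, ∃ h : x ∈ depthFil 3 N,
      (Submodule.Quotient.mk ⟨x, h⟩ : Graded N 3) ∈ oddPart N 3 := by
    intro x hx
    induction hx using Submodule.span_induction with
    | mem x hx =>
      obtain ⟨n, h1, h2, rfl⟩ := hx
      exact ⟨odd_mem h1 h2, Submodule.subset_span ⟨n, h1, h2, _, rfl⟩⟩
    | zero => exact ⟨zero_mem _, zero_mem _⟩
    | add x y _ _ hx hy =>
      obtain ⟨a, ha⟩ := hx
      obtain ⟨b, hb⟩ := hy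
      exact ⟨add_mem a b, add_mem ha hb⟩
    | smul c x _ hx =>
      obtain ⟨a, ha⟩ := hx
      exact ⟨Submodule.smul_mem _ c a, Submodule.smul_mem _ c ha⟩
  rw [eq_top_iff]
  rintro q -
  obtain ⟨⟨x, hx⟩, rfl⟩ := Submodule.Quotient.mk_surjective _ q
  obtain ⟨y, hy, z, hz, rfl⟩ := Submodule.mem_sup.1 (depthFil_le N hx)
  obtain ⟨a, ha, b, hb, rfl⟩ := Submodule.mem_sup.1 hy
  obtain ⟨h2, h3⟩ := h1 a ha
  have hb' := depthFil_mono (by omega : 2 ≤ 3) N hb
  have hz' : z ∈ depthFil 3 N := by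
    have := sub_mem hx (add_mem h2 hb')
    rwa [add_sub_cancel_left] at this
  convert h3 using 1
  refine (Submodule.Quotient.eq _).2 ?_
  change a + b + z - a ∈ depthFil 2 N ⊔ (depthFil 3 N ⊓ zetaTwoPart N)
  rw [show a + b + z - a = b + z by ring]
  exact Submodule.add_mem_sup hb ⟨hz', hz⟩

end Pool.Agent.Lib.MP_56ed1a_nt
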