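import Pool.Agent.Lib.MP_56ed1a_nt.Asy
import Pool.Agent.Lib.MP_56ed1a_nt.Gen

/-! Truncated multiple zeta values of depth at most three: stuffle and shuffle relations. -/

namespace Pool.Agent.Lib.MP_56ed1a_nt

open Finset Filter Topology

/-- Truncated single sums. -/
noncomputable def z1 (i : ℕ) : ℕ → ℝ := psum (w i)

/-- Truncated double sums. -/
noncomputable def z2 (i j : ℕ) : ℕ → ℝ := psum (z1 i * w j)

/-- Truncated triple sums. -/
noncomputable def z3 (i j k : ℕ) : ℕ → ℝ := psum (z2 i j * w k)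

lemma psum_succ {A : Type*} [AddCommMonoid A] (a : ℕ → A) (M : ℕ) :
    psum a (M + 1) = psum a M + a M := sum_range_succ _ _

@[simp] lemma psum_zero {A : Type*} [AddCommMonoid A] (a : ℕ → A) : psum a 0 = 0 := rfl

lemma z1_succ (i M : ℕ) : z1 i (M + 1) = z1 i M + w i M := psum_succ _ _
lemma z2_succ (i j M : ℕ) : z2 i j (M + 1) = z2 i j M + z1 i M * w j M := psum_succ _ _
lemma z3_succ (i j k M : ℕ) : z3 i j k (M + 1) = z3 i j k M + z2 i j M * w k M := psum_succ _ _

lemma st11 (i j : ℕ) : z1 i * z1 j = z2 i j + z2 j i + z1 (i + j + 1) := by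
  funext M
  simp only [Pi.mul_apply, Pi.add_apply]
  induction M with
  | zero => simp [z1, z2]
  | succ M ih => simp only [z1_succ, z2_succ, ← w_mul]; linear_combination ih

lemma st12 (i j k : ℕ) : z1 i * z2 j k =
    z3 i j k + z3 j i k + z3 j k i + z2 (i + j + 1) k + z2 j (i + k + 1) := by
  funext M
  simp only [Pi.mul_apply, Pi.add_apply]
  induction M with
  | zero => simp [z1, z2, z3]
  | succ M ih =>
    have h := congrFun (st11 i j) M
    simp only [Pi.mul_apply, Pi.add_apply] at h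
    simp only [z1_succ, z2_succ, z3_succ, ← w_mul]
    linear_combination ih + w k M * h

lemma z1_nonneg (i M : ℕ) : 0 ≤ z1 i M := sum_nonneg (s := range M) fun k _ => w_nonneg i k

lemma z2_nonneg (i j M : ℕ) : 0 ≤ z2 i j M :=
  sum_nonneg (s := range M) fun k _ => mul_nonneg (z1_nonneg i k) (w_nonneg j k)

lemma z1_le (i M : ℕ) : z1 i M ≤ H M :=
  sum_le_sum (s := range M) fun k _ => w_anti (Nat.zero_le i) k

lemma z2_le (i j M : ℕ) : z2 i j M ≤ H M ^ 2 := by
  calc z2 i j M ≤ ∑ k ∈ range M, H M * w 0 k := sum_le_sum fun k hk =>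
        mul_le_mul ((z1_le i k).trans (H_mono (mem_range.1 hk).le)) (w_anti (Nat.zero_le j) k)
          (w_nonneg j k) (H_nonneg M)
    _ = _ := by rw [← mul_sum, sq]; rfl

lemma conv1 {i : ℕ} (hi : 1 ≤ i) : Asy (z1 i) ∧ Tendsto (z1 i) atTop (𝓝 (reg (z1 i))) :=
  psum_conv (m := 0) (w_nonneg i) fun k => by simpa using w_anti hi k

lemma conv2 (i : ℕ) {j : ℕ} (hj : 1 ≤ j) :
    Asy (z2 i j) ∧ Tendsto (z2 i j) atTop (𝓝 (reg (z2 i j))) :=
  psum_conv (m := 1) (fun k => mul_nonneg (z1_nonneg i k) (w_nonneg j k)) fun k => by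
    rw [pow_one]; exact mul_le_mul (z1_le i k) (w_anti hj k) (w_nonneg j k) (H_nonneg k)

lemma conv3 (i j : ℕ) {k : ℕ} (hk : 1 ≤ k) :
    Tendsto (z3 i j k) atTop (𝓝 (reg (z3 i j k))) :=
  (psum_conv (m := 2) (fun l => mul_nonneg (z2_nonneg i j l) (w_nonneg k l)) fun l =>
    mul_le_mul (z2_le i j l) (w_anti hk l) (w_nonneg k l) (sq_nonneg _)).2

lemma asy1 (i : ℕ) : Asy (z1 i) := by
  rcases Nat.eq_zero_or_pos i with rfl | h
  · exact asy_H
  · exact (conv1 h).1

lemma asy2 (i j : ℕ) : Asy (z2 i j) := by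
  rcases Nat.eq_zero_or_pos j with rfl | h
  · rcases Nat.eq_zero_or_pos i with rfl | h
    · have : z2 0 0 = (1 / 2 : ℝ) • (z1 0 * z1 0 - z1 1) := by
        rw [st11]; funext M; simp; ring
      rw [this]
      exact (((asy1 0).mul (asy1 0)).sub (asy1 1)).smul _
    · have : z2 i 0 = z1 i * z1 0 - z2 0 i - z1 (i + 0 + 1) := by rw [st11]; ring
      rw [this]
      exact (((asy1 i).mul (asy1 0)).sub (conv2 0 h).1).sub (asy1 _)
  · exact (conv2 i h).1

/-- Regularised single zeta values. -/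
noncomputable def r1 (i : ℕ) : ℝ := reg (z1 i)

/-- Regularised double zeta values. -/
noncomputable def r2 (i j : ℕ) : ℝ := reg (z2 i j)

/-- Regularised triple zeta values. -/
noncomputable def r3 (i j k : ℕ) : ℝ := reg (z3 i j k)

lemma r1_zero : r1 0 = 0 := reg_H

lemma rst11 (i j : ℕ) : r1 i * r1 j = r2 i j + r2 j i + r1 (i + j + 1) := by
  rw [r1, r1, ← reg_mul (asy1 i) (asy1 j), st11, map_add, map_add]; rfl

lemma rst12 (i j k : ℕ) : r1 i * r2 j k =
    r3 i j k + r3 j i k + r3 j k i + r2 (i + j + 1) k + r2 j (i + k + 1) := by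
  rw [r1, r2, ← reg_mul (asy1 i) (asy2 j k), st12, map_add, map_add, map_add, map_add]; rfl

lemma reg_tri11 {i j : ℕ} (h : 1 ≤ i ∨ 1 ≤ j) : reg (tri (w i) (w j)) = r1 i * r1 j := by
  wlog hi : 1 ≤ i
  · rw [tri_comm, mul_comm]; exact this h.symm (h.resolve_left hi)
  refine reg_tri (tri_small (e := 0) (w_nonneg i) (w_nonneg j) fun m k M _ _ => ?_) (asy1 i) (asy1 j)
  rw [pow_zero, one_mul]
  exact mul_le_mul (w_anti hi m) (w_anti (Nat.zero_le j) k) (w_nonneg _ _) (w_nonneg _ _)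

lemma reg_tri12 {i j k : ℕ} (h : 1 ≤ i ∨ 1 ≤ k) :
    reg (tri (w i) (z1 j * w k)) = r1 i * r2 j k := by
  have h0 : ∀ l, 0 ≤ (z1 j * w k) l := fun l => mul_nonneg (z1_nonneg j l) (w_nonneg k l)
  have h1 : ∀ l M, l < M → z1 j l ≤ H M := fun l M hl => (z1_le j l).trans (H_mono hl.le)
  rcases h with h | h
  · refine reg_tri (tri_small (e := 1) (w_nonneg i) h0 fun m l M _ hl => ?_) (asy1 i) (asy2 j k)
    rw [pow_one, mul_left_comm]
    exact mul_le_mul (w_anti h m) (mul_le_mul (h1 l M hl) (w_anti (Nat.zero_le k) l) (w_nonneg _ _)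
      (H_nonneg M)) (h0 l) (w_nonneg _ _)
  · rw [tri_comm, mul_comm (r1 i)]
    refine reg_tri (tri_small (e := 1) h0 (w_nonneg i) fun l m M hl _ => ?_) (asy2 j k) (asy1 i)
    rw [pow_one, ← mul_assoc]
    exact mul_le_mul (mul_le_mul (h1 l M hl) (w_anti h l) (w_nonneg _ _) (H_nonneg M))
      (w_anti (Nat.zero_le i) m) (w_nonneg _ _) (mul_nonneg (H_nonneg M) (w_nonneg _ _))

section series

open PowerSeries

/-- The series `∑ x ^ n a_n X ^ n`. -/
noncomputable def ser (x : ℚ) (a : ℕ → ℝ) : ℝ⟦X⟧ := mk fun n => (x ^ n) • a n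

/-- The expansion of `1 / (k - x X)`, and `0` for `k = 0`. -/
noncomputable def geo (x : ℚ) (k : ℕ) : ℝ⟦X⟧ := ser x fun n => w n k

@[simp] lemma geo_zero (x : ℚ) : geo x 0 = 0 := by ext n; simp [geo, ser]

lemma geo_inv (x : ℚ) {k : ℕ} (hk : k ≠ 0) : geo x k * ((k : ℝ⟦X⟧) - C (x : ℝ) * X) = 1 := by
  have h0 : (k : ℝ) ≠ 0 := by exact_mod_cast hk
  rw [mul_sub, ← map_natCast (C (R := ℝ)), ← mul_assoc]
  ext n
  rcases n with _ | n
  · simp [geo, ser, w, h0]
  · rw [map_sub, coeff_succ_mul_X, coeff_mul_C, coeff_mul_C, coeff_one, if_neg (by omega)]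
    simp only [geo, ser, coeff_mk, w, Rat.smul_def]
    push_cast
    field_simp
    ring

lemma geo_mul (x y : ℚ) (a b : ℕ) : geo x a * geo y b =
    ((if b = 0 then 0 else geo x a) + if a = 0 then 0 else geo y b) * geo (x + y) (a + b) := by
  by_cases ha : a = 0
  · simp [ha]
  by_cases hb : b = 0
  · simp [hb]
  rw [if_neg ha, if_neg hb]
  have h1 := geo_inv x ha
  have h2 := geo_inv y hb
  have h3 := geo_inv (x + y) (k := a + b) (by omega)
  push_cast at h3
  rw [map_add] at h3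
  linear_combination (- geo x a * geo y b) * h3 + (geo (x + y) (a + b) * geo y b) * h1 +
    (geo (x + y) (a + b) * geo x a) * h2

lemma sum_ad_ite {A : Type*} [AddCommMonoid A] (f : ℕ → A) (n : ℕ) :
    ∑ p ∈ antidiagonal n, (if p.2 = 0 then 0 else f p.1) = psum f n := by
  rw [Nat.sum_antidiagonal_eq_sum_range_succ fun i j => if j = 0 then 0 else f i, sum_range_succ,
    Nat.sub_self, if_pos rfl, add_zero]
  exact sum_congr rfl fun k hk => if_neg (by have := mem_range.1 hk; omega)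

lemma sum_ad_ite' {A : Type*} [AddCommMonoid A] (f : ℕ → A) (n : ℕ) :
    ∑ p ∈ antidiagonal n, (if p.1 = 0 then 0 else f p.2) = psum f n := by
  rw [← Nat.sum_antidiagonal_swap]; exact sum_ad_ite f n

lemma psum_add {A : Type*} [AddCommMonoid A] (f g : ℕ → A) : psum (f + g) = psum f + psum g := by
  funext M; exact sum_add_distrib

/-- Generating series of the double sums. -/
noncomputable def G2 (x y : ℚ) : ℕ → ℝ⟦X⟧ := psum (psum (geo x) * geo y)

/-- Generating series of the triple sums. -/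
noncomputable def G3 (x y z : ℚ) : ℕ → ℝ⟦X⟧ := psum (G2 x y * geo z)

lemma sh11 (u v : ℚ) : tri (geo u) (geo v) = G2 u (u + v) + G2 v (u + v) := by
  rw [G2, G2, ← psum_add, tri]
  congr 1
  funext n
  simp only [Pi.add_apply, Pi.mul_apply]
  rw [← add_mul, ← sum_ad_ite, ← sum_ad_ite' (geo v), ← sum_add_distrib, sum_mul]
  exact sum_congr rfl fun p hp => by rw [geo_mul, mem_ad.1 hp]

lemma sh12 (u v t : ℚ) : tri (geo u) (psum (geo v) * geo t) =
    G3 u (u + v) (u + t) + G3 v (u + v) (u + t) + G3 v t (u + t) := by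
  rw [G3, G3, G3, ← psum_add, ← psum_add, tri]
  congr 1
  funext n
  have h1 : ∑ p ∈ antidiagonal n, geo u p.1 * psum (geo v) p.2 =
      G2 u (u + v) n + G2 v (u + v) n := by
    rw [← Pi.add_apply, ← sh11, tri_eq,
      Nat.sum_antidiagonal_eq_sum_range_succ fun i j => geo u i * psum (geo v) j, sum_range_succ]
    simp
  simp only [Pi.add_apply, Pi.mul_apply]
  rw [← add_mul, ← add_mul, ← h1, G2, ← sum_ad_ite', ← sum_add_distrib, sum_mul]
  refine sum_congr rfl fun p hp => ?_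
  rw [mul_left_comm, geo_mul, mem_ad.1 hp, ← mul_assoc]
  congr 1
  by_cases h2 : p.2 = 0
  · simp [h2]
  · by_cases h3 : p.1 = 0 <;> simp [h2, h3, add_mul, mul_comm]

lemma coeff_ser2 (e : ℕ) (x y : ℚ) (a b : ℕ → ℝ) :
    coeff e (ser x a * ser y b) = P2 e (fun i j => a i * b j) x y := by
  rw [coeff_mul, P2]
  exact sum_congr rfl fun p _ => by simp only [ser, coeff_mk, smul_mul_smul_comm]

lemma coeff_ser3 (d : ℕ) (x y z : ℚ) (a b c : ℕ → ℝ) :
    coeff d (ser x a * (ser y b * ser z c)) = P3 d (fun i j k => a i * (b j * c k)) x y z := by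
  rw [coeff_mul, P3, sum_T3 d fun i j k => (x ^ i * y ^ j * z ^ k) • (a i * (b j * c k))]
  refine sum_congr rfl fun p _ => ?_
  rw [coeff_ser2, P2, mul_sum]
  refine sum_congr rfl fun q _ => ?_
  simp only [ser, coeff_mk, smul_mul_smul_comm, mul_assoc]

lemma psum_geo (x : ℚ) (M : ℕ) : psum (geo x) M = ser x fun i => z1 i M := by
  ext n
  simp [psum, geo, ser, z1, smul_sum]

lemma P2_sum {ι : Type*} (s : Finset ι) (e : ℕ) (c : ι → ℕ → ℕ → ℝ) (x y : ℚ) :
    ∑ l ∈ s, P2 e (c l) x y = P2 e (fun i j => ∑ l ∈ s, c l i j) x y := by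
  simp only [P2, smul_sum]; exact sum_comm

lemma P3_sum {ι : Type*} (s : Finset ι) (d : ℕ) (c : ι → ℕ → ℕ → ℕ → ℝ) (x y z : ℚ) :
    ∑ l ∈ s, P3 d (c l) x y z = P3 d (fun i j k => ∑ l ∈ s, c l i j k) x y z := by
  simp only [P3, smul_sum]; exact sum_comm

lemma coeff_G2 (e : ℕ) (x y : ℚ) (M : ℕ) : coeff e (G2 x y M) = P2 e z2 x y M := by
  simp only [G2, psum, Pi.mul_apply, map_sum]
  have := psum_geo x
  simp only [psum] at this
  simp only [this]
  simp only [geo, coeff_ser2, P2_sum]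
  simp [P2, z2, psum]

lemma coeff_G3 (d : ℕ) (x y z : ℚ) (M : ℕ) : coeff d (G3 x y z M) = P3 d z3 x y z M := by
  have h : ∀ k, G2 x y k * geo z k = ∑ l ∈ range k, (ser x fun i => z1 i l) * (geo y l * geo z k) := by
    intro k
    rw [G2, psum, sum_mul]
    exact sum_congr rfl fun l _ => by rw [Pi.mul_apply, psum_geo, mul_assoc]
  simp only [G3, psum, Pi.mul_apply, h, map_sum]
  simp only [geo, coeff_ser3, P3_sum]
  simp [P3, z3, z2, psum, sum_mul, mul_assoc]

lemma coeff_tri11 (e : ℕ) (x y : ℚ) (M : ℕ) :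
    coeff e (tri (geo x) (geo y) M) = P2 e (fun i j => tri (w i) (w j)) x y M := by
  simp only [tri, psum, map_sum, geo, coeff_ser2, P2_sum]
  simp [P2, psum]

lemma coeff_tri12 (d : ℕ) (x y z : ℚ) (M : ℕ) :
    coeff d (tri (geo x) (psum (geo y) * geo z) M) =
      P3 d (fun i j k => tri (w i) (z1 j * w k)) x y z M := by
  simp only [tri, Pi.mul_apply, psum_geo]
  simp only [psum, map_sum, geo, coeff_ser3, P3_sum]
  simp [P3, psum]

end series

lemma rsh11 {e : ℕ} (he : 1 ≤ e) (u v : ℚ) :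
    P2 e r2 u (u + v) + P2 e r2 v (u + v) = P2 e (fun i j => r1 i * r1 j) u v := by
  have h : P2 e z2 u (u + v) + P2 e z2 v (u + v) = P2 e (fun i j => tri (w i) (w j)) u v := by
    funext M
    rw [Pi.add_apply, ← coeff_G2, ← coeff_G2, ← coeff_tri11, sh11, Pi.add_apply, map_add]
  have h2 := congrArg (reg.restrictScalars ℚ) h
  rw [map_add, map_P2, map_P2, map_P2] at h2
  refine h2.trans (sum_congr rfl fun p hp => ?_)
  have := mem_ad.1 hp
  beta_reduce
  rw [LinearMap.restrictScalars_apply, reg_tri11 (by omega)]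

lemma rsh12 (d : ℕ) : ∃ K : ℝ, ∀ u v t : ℚ,
    P3 d r3 u (u + v) (u + t) + P3 d r3 v (u + v) (u + t) + P3 d r3 v t (u + t) =
      P3 d (fun i j k => r1 i * r2 j k) u v t + v ^ d • K := by
  refine ⟨reg (tri (w 0) (z1 d * w 0)) - r1 0 * r2 d 0, fun u v t => ?_⟩
  have h : P3 d z3 u (u + v) (u + t) + P3 d z3 v (u + v) (u + t) + P3 d z3 v t (u + t) =
      P3 d (fun i j k => tri (w i) (z1 j * w k)) u v t := by
    funext M
    rw [Pi.add_apply, Pi.add_apply, ← coeff_G3, ← coeff_G3, ← coeff_G3, ← coeff_tri12, sh12,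
      Pi.add_apply, Pi.add_apply, map_add, map_add]
  have h2 := congrArg (reg.restrictScalars ℚ) h
  rw [map_add, map_add, map_P3, map_P3, map_P3, map_P3] at h2
  refine h2.trans ?_
  rw [← sub_eq_iff_eq_add', P3, P3, ← sum_sub_distrib, sum_eq_single (0, d, 0)]
  · simp [smul_sub]
  · rintro ⟨i, j, k⟩ hp hne
    have := mem_T3.1 hp
    rw [LinearMap.restrictScalars_apply, reg_tri12, sub_self]
    by_contra hc
    exact hne (by simp only [Prod.mk.injEq] at *; omega)
  · intro h; exact absurd (mem_T3.2 (by simp)) h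

end Pool.Agent.Lib.MP_56ed1a_nt
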